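import Pool.Agent.Helper71.E5.Stmts

set_option autoImplicit false

open Complex

namespace E5

theorem D2 : ST_D2 := by
  intro n c hK i j
  obtain ⟨z, hz⟩ := hK
  obtain ⟨ε, hε, hb⟩ := Metric.isOpen_iff.1 isOpen_interior z hz
  set D : ℂ := c j - c i with hD
  set t : ℝ := ε / (2 * (‖D‖ + 1)) with ht
  have hD0 : 0 ≤ ‖D‖ := norm_nonneg _
  have ht0 : 0 < t := by positivity
  have h1 : t * ‖D‖ < ε := by
    rw [ht, div_mul_eq_mul_div, div_lt_iff₀ (by positivity)]
    nlinarith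
  have key : ∀ w : ℂ, ‖w‖ < ε → ∀ k, ‖z + w - c k‖ ≤ 1 := by
    intro w hw k
    have h2 : z + w ∈ Metric.ball z ε := by
      rw [Metric.mem_ball, dist_eq_norm]
      simpa using hw
    have h3 := interior_subset (hb h2)
    unfold AX.K at h3
    have h4 := Set.mem_iInter.1 h3 k
    rwa [Metric.mem_closedBall, dist_eq_norm] at h4
  have hw1 : ‖(t : ℂ) * D‖ < ε := by
    rw [norm_mul, Complex.norm_real, Real.norm_of_nonneg ht0.le]
    exact h1
  have hw2 : ‖-((t : ℂ) * D)‖ < ε := by rwa [norm_neg]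
  have a1 := key _ hw1 i
  have a2 := key _ hw2 j
  have e1 : ((1 + 2 * t : ℝ) : ℂ) * D = (z + (t : ℂ) * D - c i) - (z + -((t : ℂ) * D) - c j) := by
    rw [hD]
    push_cast
    ring
  have a3 : (1 + 2 * t) * ‖D‖ ≤ 2 := by
    have h5 : ‖((1 + 2 * t : ℝ) : ℂ) * D‖ = (1 + 2 * t) * ‖D‖ := by
      rw [norm_mul, Complex.norm_real, Real.norm_of_nonneg (by positivity)]
    rw [← h5, e1]
    refine (norm_sub_le _ _).trans ?_
    linarith
  have e2 : dist (c i) (c j) = ‖D‖ := by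
    rw [dist_comm, dist_eq_norm]
  rw [e2]
  by_contra hcon
  push Not at hcon
  nlinarith

end E5
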