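import Pool.Agent.Helper71.E5.Stmts

set_option autoImplicit false

open Complex

namespace E5

theorem K_perm55 {n : ℕ} (r : ℝ) (c : Fin n → ℂ) (σ : Equiv.Perm (Fin n)) :
    AX.K r (fun i => c (σ i)) = AX.K r c := by
  unfold AX.K
  exact σ.surjective.iInter_comp (fun i => Metric.closedBall (c i) r)

theorem T_perm55 {n : ℕ} (r : ℝ) (c : Fin n → ℂ) (σ : Equiv.Perm (Fin n)) (i : Fin n) :
    AX.T r (fun i => c (σ i)) i = AX.T r c (σ i) := by
  unfold AX.T
  rw [K_perm55]

theorem HDPERM : ST_HDPERM := by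
  intro n c M g a b σ h
  refine ⟨h.inj.comp σ.injective, ?_, h.two, ?_, ?_, ?_, h.aper, h.bper, h.le, h.ltpi, ?_, ?_, ?_⟩
  · rw [K_perm55]
    exact h.int
  · intro k
    rw [h.gper]
  · intro k l hkl
    exact h.ginj k l (σ.symm.injective hkl)
  · intro i hi
    rw [T_perm55] at hi
    obtain ⟨k, hk⟩ := h.cov (σ i) hi
    exact ⟨k, by rw [hk, Equiv.symm_apply_apply]⟩
  · intro k θ h1 h2
    rw [T_perm55, Equiv.apply_symm_apply]
    exact h.mem k θ h1 h2
  · intro k
    rw [Equiv.apply_symm_apply, Equiv.apply_symm_apply]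
    exact h.step k
  · intro k
    rw [Equiv.apply_symm_apply, Equiv.apply_symm_apply]
    exact h.corner k

end E5
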