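import Pool.Agent.Helper55.E5.TPER

set_option autoImplicit false

open Complex

namespace E5

theorem conj_e55 (θ : ℝ) : (starRingEnd ℂ) (AX.e θ) = AX.e (-θ) := by
  unfold AX.e
  rw [← Complex.exp_conj, map_mul, Complex.conj_ofReal, Complex.conj_I]
  congr 1
  push_cast
  ring

theorem dist_conj55 (x y : ℂ) : dist ((starRingEnd ℂ) x) ((starRingEnd ℂ) y) = dist x y := by
  rw [dist_eq_norm, ← map_sub, Complex.norm_conj, dist_eq_norm]

theorem lg_conj55 (x y : ℂ) : lg ((starRingEnd ℂ) x) ((starRingEnd ℂ) y) = lg y x := by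
  unfold lg AX.dl
  rw [dist_conj55, dist_comm]

theorem K_conj55 {n : ℕ} (r : ℝ) (c : Fin n → ℂ) (x : ℂ) :
    x ∈ AX.K r (fun i => (starRingEnd ℂ) (c i)) ↔ (starRingEnd ℂ) x ∈ AX.K r c := by
  unfold AX.K
  simp only [Set.mem_iInter, Metric.mem_closedBall]
  refine forall_congr' fun i => ?_
  have h := dist_conj55 ((starRingEnd ℂ) x) (c i)
  rw [Complex.conj_conj] at h
  rw [h]

theorem T_conj55 {n : ℕ} (c : Fin n → ℂ) (i : Fin n) (θ : ℝ) :
    θ ∈ AX.T 1 (fun i => (starRingEnd ℂ) (c i)) i ↔ -θ ∈ AX.T 1 c i := by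
  unfold AX.T
  rw [Set.mem_ofPred_eq, Set.mem_ofPred_eq, K_conj55, map_add, map_mul, Complex.conj_conj,
    Complex.conj_ofReal, conj_e55]

theorem HDREF : ST_HDREF := by
  intro n c M g a b h
  have e1 : ∀ k : ℤ, -(k + M) + M = -k := fun k => by ring
  have e2 : ∀ k : ℤ, -(k + 1) + 1 = -k := fun k => by ring
  have hK : AX.K 1 (fun i => (starRingEnd ℂ) (c i)) = Complex.conjLIE.toHomeomorph ⁻¹' AX.K 1 c := by
    ext x
    exact K_conj55 1 c x
  refine ⟨?_, ?_, h.two, ?_, ?_, ?_, ?_, ?_, ?_, ?_, ?_, ?_, ?_⟩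
  · intro i j hij
    exact h.inj ((starRingEnd ℂ).injective hij)
  · obtain ⟨x, hx⟩ := h.int
    rw [hK, ← Complex.conjLIE.toHomeomorph.preimage_interior]
    exact ⟨Complex.conjLIE.toHomeomorph.symm x, by simpa using hx⟩
  · intro k
    rw [← h.gper (-(k + M)), e1]
  · intro k l hkl
    obtain ⟨z, hz⟩ := h.ginj (-k) (-l) hkl
    exact ⟨-z, by linarith⟩
  · intro i hi
    obtain ⟨θ, hθ⟩ := hi
    obtain ⟨k, hk⟩ := h.cov i ⟨-θ, (T_conj55 c i θ).1 hθ⟩
    exact ⟨-k, by rw [neg_neg]; exact hk⟩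
  · intro k
    have := h.bper (-(k + M))
    rw [e1] at this
    linarith
  · intro k
    have := h.aper (-(k + M))
    rw [e1] at this
    linarith
  · intro k
    exact neg_le_neg (h.le (-k))
  · intro k
    have := h.ltpi (-k)
    change -a (-k) < -b (-k) + Real.pi
    linarith
  · intro k θ h1 h2
    rw [T_conj55]
    have hpi := Real.pi_pos
    have h3 := h.ltpi (-k)
    have h4 := h.le (-k)
    constructor
    · intro h5
      by_contra hcon
      push Not at hcon
      have h6 := T_add55 1 h5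
      push_cast at h6
      have h7 := (h.mem (-k) (-θ + 2 * Real.pi * 1) (by linarith) (by linarith)).1 h6
      linarith
    · intro h5
      exact (h.mem (-k) (-θ) (by linarith) (by linarith)).2 (by linarith)
  · intro k
    have := h.step (-(k + 1))
    rw [e2] at this
    rw [lg_conj55]
    linarith
  · intro k
    have := h.corner (-(k + 1))
    rw [e2] at this
    rw [← conj_e55, ← conj_e55, ← map_add, ← map_add, this]

end E5
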