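import Pool.Agent.Helper71.E5.Stmts

set_option autoImplicit false

open Complex

namespace E5

theorem HDSHIFT : ST_HDSHIFT := by
  intro n c M g a b s h
  have e1 : ∀ k : ℤ, k + M + s = k + s + M := fun k => by ring
  have e2 : ∀ k : ℤ, k + 1 + s = k + s + 1 := fun k => by ring
  refine ⟨h.inj, h.int, h.two, ?_, ?_, ?_, ?_, ?_, ?_, ?_, ?_, ?_, ?_⟩
  · intro k
    rw [e1, h.gper]
  · intro k l hkl
    have := h.ginj (k + s) (l + s) hkl
    rwa [add_sub_add_right_eq_sub] at this
  · intro i hi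
    obtain ⟨k, hk⟩ := h.cov i hi
    exact ⟨k - s, by rw [sub_add_cancel]; exact hk⟩
  · intro k
    rw [e1, h.aper]
  · intro k
    rw [e1, h.bper]
  · exact fun k => h.le (k + s)
  · exact fun k => h.ltpi (k + s)
  · exact fun k θ h1 h2 => h.mem (k + s) θ h1 h2
  · intro k
    rw [e2, h.step]
  · intro k
    rw [e2, h.corner]

end E5
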