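import Pool.Agent.Helper71.E5.WStmts

/-!
MP_efd95c_co, wheels: rows TSYM, WARC, WARC0.
-/

set_option autoImplicit false

open Complex

namespace E5

theorem we_add55 (a b : ℝ) : AX.e (a + b) = AX.e a * AX.e b := by
  unfold AX.e
  rw [← Complex.exp_add]
  congr 1
  push_cast
  ring

theorem we_re55 (a : ℝ) : (AX.e a).re = Real.cos a := by
  unfold AX.e
  exact Complex.exp_ofReal_mul_I_re a

theorem we_im55 (a : ℝ) : (AX.e a).im = Real.sin a := by
  unfold AX.e
  exact Complex.exp_ofReal_mul_I_im a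

theorem we_norm55 (a : ℝ) : ‖AX.e a‖ = 1 := by
  unfold AX.e
  exact Complex.norm_exp_ofReal_mul_I a

theorem we_neg55 (a : ℝ) : AX.e (a + Real.pi) = - AX.e a := by
  apply Complex.ext
  · rw [Complex.neg_re, we_re55, we_re55, Real.cos_add_pi]
  · rw [Complex.neg_im, we_im55, we_im55, Real.sin_add_pi]

theorem we_two55 (a : ℝ) : AX.e (a + 2 * Real.pi) = AX.e a := by
  apply Complex.ext
  · rw [we_re55, we_re55, Real.cos_add_two_pi]
  · rw [we_im55, we_im55, Real.sin_add_two_pi]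

theorem we_conj55 (a : ℝ) : (starRingEnd ℂ) (AX.e a) = AX.e (-a) := by
  apply Complex.ext
  · rw [Complex.conj_re, we_re55, we_re55, Real.cos_neg]
  · rw [Complex.conj_im, we_im55, we_im55, Real.sin_neg]

/-- chord of a unit arc -/
theorem we_sub55 (s t : ℝ) : AX.e s - AX.e t =
    ((2 * Real.sin ((t - s) / 2) : ℝ) : ℂ) * AX.e ((s + t) / 2 - Real.pi / 2) := by
  have hs : s = (s + t) / 2 - (t - s) / 2 := by ring
  have ht : t = (s + t) / 2 + (t - s) / 2 := by ring
  have e1 : AX.e s = AX.e ((s + t) / 2 - (t - s) / 2) := by rw [← hs]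
  have e2 : AX.e t = AX.e ((s + t) / 2 + (t - s) / 2) := by rw [← ht]
  rw [e1, e2]
  apply Complex.ext
  · rw [Complex.sub_re, Complex.re_ofReal_mul, we_re55, we_re55, we_re55, Real.cos_sub,
      Real.cos_add, Real.cos_sub_pi_div_two]
    ring
  · rw [Complex.sub_im, Complex.im_ofReal_mul, we_im55, we_im55, we_im55, Real.sin_sub,
      Real.sin_add, Real.sin_sub_pi_div_two]
    ring

/-- polar coordinates are unique -/
theorem polar55 (r r' a b : ℝ) (hr : 0 < r) (hr' : 0 ≤ r')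
    (h : (r : ℂ) * AX.e a = (r' : ℂ) * AX.e b) : r = r' ∧ AX.e a = AX.e b := by
  have h1 : ‖(r : ℂ) * AX.e a‖ = ‖(r' : ℂ) * AX.e b‖ := by rw [h]
  rw [norm_mul, norm_mul, we_norm55, we_norm55, mul_one, mul_one, Complex.norm_real,
    Complex.norm_real, Real.norm_of_nonneg hr.le, Real.norm_of_nonneg hr'] at h1
  refine ⟨h1, ?_⟩
  rw [← h1] at h
  have h2 : (r : ℂ) ≠ 0 := by
    exact_mod_cast hr.ne'
  exact mul_left_cancel₀ h2 h

theorem half55 (s t : ℝ) (h1 : s < t) (h2 : t < s + Real.pi) :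
    0 < Real.sin ((t - s) / 2) ∧ Real.sin ((t - s) / 2) < 1 ∧
      Real.arcsin (Real.sin ((t - s) / 2)) = (t - s) / 2 := by
  have h3 : 0 < (t - s) / 2 := by linarith
  have h4 : (t - s) / 2 < Real.pi / 2 := by linarith
  refine ⟨Real.sin_pos_of_pos_of_lt_pi h3 (by linarith [Real.pi_pos]), ?_, ?_⟩
  · rw [← Real.sin_pi_div_two]
    exact Real.sin_lt_sin_of_lt_of_le_pi_div_two (by linarith [Real.pi_pos]) le_rfl h4
  · exact Real.arcsin_sin (by linarith [Real.pi_pos]) h4.le

/-- row TSYM -/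
theorem st_TSYM : ST_TSYM := by
  intro r s θ
  have h : ch r s θ = ch s r θ := by
    unfold ch
    congr 1
    ring
  have h2 : hd r s θ = hd s r θ := by
    unfold hd
    rw [h]
  refine ⟨h, h2, ?_, ?_⟩
  · unfold TT
    rw [h2]
  · unfold tq
    rw [h, h2, mul_comm r s]

/-- row WARC0 -/
theorem st_WARC0 : ST_WARC0 := by
  intro x s t r φ hst htp hr
  obtain ⟨h1, h2, h3⟩ := half55 s t hst htp
  have hes : AX.e s = AX.e ((s + t) / 2) * AX.e (-((t - s) / 2)) := by
    rw [← we_add55]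
    congr 1
    ring
  have het : AX.e t = AX.e ((s + t) / 2) * AX.e ((t - s) / 2) := by
    rw [← we_add55]
    congr 1
    ring
  have key : ∀ ψ : ℝ, (r : ℂ) * AX.e ψ =
      ((2 * Real.sin ((t - s) / 2) : ℝ) : ℂ) * AX.e ((s + t) / 2 - Real.pi / 2) →
      AX.e s = AX.e (ψ + Real.pi / 2 - h0 r) ∧ AX.e t = AX.e (ψ + Real.pi / 2 + h0 r) ∧
        t - s = 2 * h0 r ∧ r < 2 := by
    intro ψ h
    obtain ⟨h4, h5⟩ := polar55 _ _ _ _ hr (by positivity) h
    have h6 : h0 r = (t - s) / 2 := by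
      unfold h0
      rw [h4]
      rw [show 2 * Real.sin ((t - s) / 2) / 2 = Real.sin ((t - s) / 2) by ring]
      exact h3
    have h7 : AX.e ((s + t) / 2) = AX.e (ψ + Real.pi / 2) := by
      rw [we_add55, h5, ← we_add55]
      congr 1
      ring
    refine ⟨?_, ?_, ?_, ?_⟩
    · rw [hes, h7, ← we_add55, h6]
      congr 1
    · rw [het, h7, ← we_add55, h6]
    · rw [h6]
      ring
    · rw [h4]
      linarith
  constructor
  · intro h4 h5
    refine key φ ?_
    rw [← we_sub55, ← h5]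
    have h6 : x = AX.e s := sub_eq_zero.mp h4
    rw [h6]
  · intro h4 h5
    have h6 : x = AX.e t := sub_eq_zero.mp h5
    have h7 : (r : ℂ) * AX.e (φ - Real.pi) =
        ((2 * Real.sin ((t - s) / 2) : ℝ) : ℂ) * AX.e ((s + t) / 2 - Real.pi / 2) := by
      rw [← we_sub55]
      have h8 : AX.e φ = - AX.e (φ - Real.pi) := by
        rw [← we_neg55]
        congr 1
        ring
      have h9 : (r : ℂ) * AX.e (φ - Real.pi) = - ((r : ℂ) * AX.e φ) := by
        rw [h8]
        ring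
      rw [h9, ← h4, h6]
      ring
    obtain ⟨k1, k2, k3, k4⟩ := key _ h7
    refine ⟨?_, ?_, k3, k4⟩
    · rw [k1, ← we_two55]
      congr 1
      ring
    · rw [k2]
      congr 1
      ring

/-- the chord in polar coordinates at a vertex -/
theorem ch_polar55 (r s θ : ℝ) :
    (r : ℂ) - (s : ℂ) * AX.e (-θ) = (ch r s θ : ℂ) * AX.e (un r s θ) := by
  have h1 : ‖(r : ℂ) - (s : ℂ) * AX.e (-θ)‖ = ch r s θ := by
    unfold ch
    rw [← Real.sqrt_sq (norm_nonneg _)]
    congr 1
    rw [Complex.sq_norm, Complex.normSq_apply, Complex.sub_re, Complex.sub_im,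
      Complex.re_ofReal_mul, Complex.im_ofReal_mul, Complex.ofReal_re, Complex.ofReal_im,
      we_re55, we_im55, Real.cos_neg, Real.sin_neg]
    linear_combination s ^ 2 * Real.sin_sq_add_cos_sq θ
  have h2 := Complex.norm_mul_exp_arg_mul_I ((r : ℂ) - (s : ℂ) * AX.e (-θ))
  rw [h1] at h2
  exact h2.symm

/-- row WARC -/
theorem st_WARC : ST_WARC := by
  intro x s t r r' φ θ hst htp hr hr' hθ hθp hxs hxt
  obtain ⟨h1, h2, h3⟩ := half55 s t hst htp
  have hes : AX.e s = AX.e ((s + t) / 2) * AX.e (-((t - s) / 2)) := by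
    rw [← we_add55]
    congr 1
    ring
  have het : AX.e t = AX.e ((s + t) / 2) * AX.e ((t - s) / 2) := by
    rw [← we_add55]
    congr 1
    ring
  have hd1 : AX.e s - AX.e t = (r' : ℂ) * AX.e (φ + θ) - (r : ℂ) * AX.e φ := by
    rw [← hxt, ← hxs]
    ring
  have hA : AX.e s - AX.e t = (ch r r' θ : ℂ) * AX.e (φ + Real.pi - un r r' θ) := by
    have h4 := congrArg (starRingEnd ℂ) (ch_polar55 r r' θ)
    rw [map_sub, map_mul, map_mul, Complex.conj_ofReal, Complex.conj_ofReal,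
      Complex.conj_ofReal, we_conj55, we_conj55, neg_neg] at h4
    rw [hd1, we_add55, show φ + Real.pi - un r r' θ = (φ + -(un r r' θ)) + Real.pi by ring,
      we_neg55, we_add55]
    linear_combination (-AX.e φ) * h4
  have hB : AX.e s - AX.e t = (ch r' r θ : ℂ) * AX.e (φ + θ + un r' r θ) := by
    have h4 := ch_polar55 r' r θ
    have h5 : AX.e (-θ) * AX.e (φ + θ) = AX.e φ := by
      rw [← we_add55]
      congr 1
      ring
    rw [hd1, we_add55 (φ + θ) (un r' r θ)]
    linear_combination (AX.e (φ + θ)) * h4 + (r : ℂ) * h5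
  have hpos : 0 < 2 * Real.sin ((t - s) / 2) := by linarith
  have hch0 : ∀ a b c : ℝ, 0 ≤ ch a b c := fun a b c => Real.sqrt_nonneg _
  rw [we_sub55] at hA hB
  obtain ⟨hA1, hA2⟩ := polar55 _ _ _ _ hpos (hch0 _ _ _) hA
  obtain ⟨hB1, hB2⟩ := polar55 _ _ _ _ hpos (hch0 _ _ _) hB
  have h6 : hd r r' θ = (t - s) / 2 := by
    unfold hd
    rw [← hA1, show 2 * Real.sin ((t - s) / 2) / 2 = Real.sin ((t - s) / 2) by ring]
    exact h3
  have h6' : hd r' r θ = (t - s) / 2 := by
    unfold hd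
    rw [← hB1, show 2 * Real.sin ((t - s) / 2) / 2 = Real.sin ((t - s) / 2) by ring]
    exact h3
  have h7 : AX.e ((s + t) / 2) = AX.e (φ + Real.pi - un r r' θ + Real.pi / 2) := by
    rw [we_add55, ← hA2, ← we_add55]
    congr 1
    ring
  have h8 : AX.e ((s + t) / 2) = AX.e (φ + θ + un r' r θ + Real.pi / 2) := by
    rw [we_add55, ← hB2, ← we_add55]
    congr 1
    ring
  refine ⟨?_, ?_, ?_, ?_⟩
  · rw [hes, h7, ← we_add55]
    unfold UU
    rw [h6]
    congr 1
    ring
  · rw [het, h8, ← we_add55]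
    unfold UU
    rw [h6']
    congr 1
    ring
  · rw [h6]
    ring
  · rw [← hA1]
    linarith

end E5
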