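import Pool.Agent.Helper71.E5.Stmts

set_option autoImplicit false

open Complex

namespace E5

theorem zw_mem55 {α β : Type} (f : α → α → β) (l l' : List α) {x : β} (hx : x ∈ List.zipWith f l l') :
    ∃ u ∈ l, ∃ v ∈ l', f u v = x := by
  rw [← List.map_uncurry_zip_eq_zipWith] at hx
  obtain ⟨⟨u, v⟩, h1, h2⟩ := List.mem_map.1 hx
  obtain ⟨h3, h4⟩ := List.of_mem_zip h1
  exact ⟨u, h3, v, h4, h2⟩

theorem CG0 : ST_CG0 := by
  intro n c l i hi
  unfold cgrad
  refine List.sum_eq_zero fun x hx => ?_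
  obtain ⟨u, hu, v, hv, h⟩ := zw_mem55 _ _ _ hx
  have h1 : u ≠ i := fun h => hi (h ▸ hu)
  have h2 : v ≠ i := fun h => hi (h ▸ (List.mem_rotate.1 hv))
  rw [← h, if_neg h1, if_neg h2]

end E5
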