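import Pool.Agent.Helper71.E5.Stmts

set_option autoImplicit false

open Complex

namespace E5

theorem e_re55 (θ : ℝ) : (AX.e θ).re = Real.cos θ := by
  unfold AX.e
  rw [Complex.exp_ofReal_mul_I_re]

theorem e_im55 (θ : ℝ) : (AX.e θ).im = Real.sin θ := by
  unfold AX.e
  rw [Complex.exp_ofReal_mul_I_im]

theorem NRM : ST_NRM := by
  intro a b x y
  rw [Complex.sq_norm, Complex.normSq_apply]
  simp only [Complex.add_re, Complex.add_im, Complex.mul_re, Complex.mul_im, Complex.sub_re,
    Complex.sub_im, Complex.neg_re, Complex.neg_im, Complex.I_re, Complex.I_im,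
    Complex.ofReal_re, Complex.ofReal_im, e_re55, e_im55]
  unfold N2
  rw [Real.cos_sub, Real.sin_sub]
  linear_combination (1 + x ^ 2) * (Real.sin_sq_add_cos_sq b) +
    (1 + y ^ 2) * (Real.sin_sq_add_cos_sq a)

end E5
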