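import Pool.Agent.Helper71.E5.Stmts
import Pool.Agent.Helper55.E5.NRM

set_option autoImplicit false

open Complex

namespace E5

theorem tn_nn55 (x y : ℂ) : 0 ≤ tn x y := div_nonneg dist_nonneg (Real.sqrt_nonneg _)

theorem N2_pos55 {e a b : ℝ} (h0 : 0 < e) (h1 : e < Real.pi) (ha : 0 ≤ a) (hb : 0 ≤ b) :
    0 < N2 e a b := by
  unfold N2
  have hs := Real.sin_pos_of_pos_of_lt_pi h0 h1
  have hc : Real.cos e < 1 := by
    have := Real.sin_sq_add_cos_sq e
    by_contra hcon
    push Not at hcon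
    nlinarith
  have hc2 := Real.neg_one_le_cos e
  have h2 : 0 ≤ 2 * (a + b) * Real.sin e := by positivity
  have h3 : 0 ≤ a * b * (1 + Real.cos e) := mul_nonneg (mul_nonneg ha hb) (by linarith)
  nlinarith [sq_nonneg (a - b)]

/-- Every index occurs when `M = n`. -/
theorem HD.surj55 {n : ℕ} {c : Fin n → ℂ} {g : ℤ → Fin n} {a b : ℤ → ℝ} (h : HD c n g a b)
    (i : Fin n) : ∃ k : ℤ, g k = i := by
  have h1 : Function.Injective (fun k : Fin n => g ((k : ℕ) : ℤ)) := by
    intro k l hkl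
    obtain ⟨z, hz⟩ := h.ginj _ _ hkl
    have hk := k.isLt
    have hl := l.isLt
    have hz0 : z = 0 := by
      by_contra hcon
      rcases lt_or_gt_of_ne hcon with h2 | h2
      · have : (n : ℤ) * z ≤ (n : ℤ) * (-1) :=
          mul_le_mul_of_nonneg_left (by omega) (by omega)
        omega
      · have : (n : ℤ) * 1 ≤ (n : ℤ) * z := mul_le_mul_of_nonneg_left (by omega) (by omega)
        omega
    rw [hz0, mul_zero] at hz
    exact Fin.ext (by omega)
  obtain ⟨k, hk⟩ := (Finite.injective_iff_surjective.1 h1) i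
  exact ⟨_, hk⟩

theorem CGPOS (hQ : ST_CGQ) : ST_CGPOS := by
  intro n c g a b h hab i hi
  obtain ⟨k, hk⟩ := h.surj55 i
  have h1 := (hQ n c g a b h).1 k
  rw [hk, hi] at h1
  have h2 := NRM (a k) (b k) (tn (c i) (c (g (k + 1)))) (tn (c (g (k - 1))) (c i))
  rw [← h1, norm_zero] at h2
  have h3 := N2_pos55 (e := b k - a k) (by linarith [hab k]) (by linarith [h.ltpi k])
    (tn_nn55 (c (g (k - 1))) (c i)) (tn_nn55 (c i) (c (g (k + 1))))
  rw [← h2] at h3
  norm_num at h3

end E5
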