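import Pool.Agent.Helper71.E5.Stmts

set_option autoImplicit false

namespace E5

theorem CRED : ST_CRED := by
  intro n nx A t ht
  rw [Finset.sum_add_distrib]
  have h1 : ∑ i ∈ A, (if nx i ∈ A then t i else 2 * t i) =
      ∑ j, (if j ∈ A then (if nx j ∈ A then t j else 2 * t j) else 0) := by
    rw [← Finset.sum_filter]
    refine Finset.sum_congr ?_ fun _ _ => rfl
    ext x
    simp
  have h2 : ∑ i ∈ A, (if nx.symm i ∈ A then t (nx.symm i) else 2 * t (nx.symm i)) =
      ∑ j, (if nx j ∈ A then (if j ∈ A then t j else 2 * t j) else 0) := by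
    have h3 : ∑ i ∈ A, (if nx.symm i ∈ A then t (nx.symm i) else 2 * t (nx.symm i)) =
        ∑ i, (if i ∈ A then (if nx.symm i ∈ A then t (nx.symm i) else 2 * t (nx.symm i))
          else 0) := by
      rw [← Finset.sum_filter]
      refine Finset.sum_congr ?_ fun _ _ => rfl
      ext x
      simp
    rw [h3, ← Equiv.sum_comp nx]
    refine Finset.sum_congr rfl fun j _ => ?_
    rw [Equiv.symm_apply_apply]
  rw [h1, h2, ← Finset.sum_add_distrib]
  refine Finset.sum_le_sum fun j _ => ?_
  have := ht j
  split_ifs <;> linarith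

end E5
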