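import Pool.Agent.Helper55.E5.TPER

set_option autoImplicit false

open Complex

namespace E5

theorem HDFULL : ST_HDFULL := by
  intro n c M g a b h hf
  have h1 : Function.Injective (fun k : Fin M => g ((k : ℕ) : ℤ)) := by
    intro k l hkl
    obtain ⟨z, hz⟩ := h.ginj _ _ hkl
    have hk := k.isLt
    have hl := l.isLt
    have hz0 : z = 0 := by
      by_contra hcon
      rcases lt_or_gt_of_ne hcon with h2 | h2
      · have : (M : ℤ) * z ≤ (M : ℤ) * (-1) :=
          mul_le_mul_of_nonneg_left (by omega) (by omega)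
        omega
      · have : (M : ℤ) * 1 ≤ (M : ℤ) * z := mul_le_mul_of_nonneg_left (by omega) (by omega)
        omega
    rw [hz0, mul_zero] at hz
    exact Fin.ext (by omega)
  have h2 : Function.Surjective (fun k : Fin M => g ((k : ℕ) : ℤ)) := by
    intro i
    obtain ⟨s, t, hst, hT⟩ := hf i
    obtain ⟨k, hk⟩ := h.cov i ⟨s, hT ⟨le_rfl, hst.le⟩⟩
    have hM : (0 : ℤ) < M := by have := h.two; omega
    have a1 := Int.emod_nonneg k hM.ne'
    have a2 := Int.emod_lt_of_pos k hM
    refine ⟨⟨(k % M).toNat, by omega⟩, ?_⟩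
    change g (((k % M).toNat : ℕ) : ℤ) = i
    rw [Int.toNat_of_nonneg a1, ← hk, ← g_mod55 h.gper (k % M) (k / M), Int.emod_add_mul_ediv]
  refine ⟨?_, ?_⟩
  · have h3 := Fintype.card_of_bijective (f := fun k : Fin M => g ((k : ℕ) : ℤ)) ⟨h1, h2⟩
    simpa using h3
  · intro k
    by_contra hcon
    have hab : b k = a k := le_antisymm (not_lt.1 hcon) (h.le k)
    obtain ⟨s, t, hst, hT⟩ := hf (g k)
    have hpi := Real.pi_pos
    have h2pi : (0 : ℝ) < 2 * Real.pi := by positivity
    set z : ℤ := ⌊(s - a k) / (2 * Real.pi)⌋ with hz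
    have b1 : (z : ℝ) ≤ (s - a k) / (2 * Real.pi) := Int.floor_le _
    have b2 : (s - a k) / (2 * Real.pi) < z + 1 := Int.lt_floor_add_one _
    rw [le_div_iff₀ h2pi] at b1
    rw [div_lt_iff₀ h2pi] at b2
    have c1 := T_add55 (-z) (hT ⟨le_rfl, hst.le⟩)
    push_cast at c1
    have c2 := (h.mem k (s + 2 * Real.pi * -z) (by linarith) (by linarith)).1 c1
    have hs : s + 2 * Real.pi * -z = a k := by linarith
    set ε : ℝ := min (t - s) 1 with hε
    have e1 : 0 < ε := lt_min (by linarith) one_pos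
    have e2 : ε ≤ t - s := min_le_left _ _
    have e3 : ε ≤ 1 := min_le_right _ _
    have hm : s + ε ∈ Set.Icc s t := ⟨by linarith, by linarith⟩
    have c3 := T_add55 (-z) (hT hm)
    push_cast at c3
    have hp3 := Real.pi_gt_three
    have c4 := (h.mem k (s + ε + 2 * Real.pi * -z) (by linarith) (by linarith)).1 c3
    linarith

end E5
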