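import Pool.Agent.Helper55.E5.KYX

/-!
MP_efd95c_co, wheels of type C: one half of the pattern `yx` (`ρ_y ≤ ρ_x`, `e ≤ A`), and the frame
of row KYE.
-/

set_option autoImplicit false
set_option linter.unusedVariables false

open Real

namespace E5

/-- the case `ρ_y ≤ ρ_x`, `e ≤ A` -/
theorem yxh1 {ra rx ry rb b1 b2 b3 e V W : ℝ} (ra0 : 0 < ra) (ra2 : ra < 2) (rx0 : 0 < rx)
    (rx2 : rx < 2) (ry0 : 0 < ry) (ry2 : ry < 2) (rb0 : 0 < rb) (rb2 : rb < 2)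
    (b10 : 0 < b1) (b20 : 0 < b2) (b30 : 0 < b3) (hyx : ry ≤ rx) (l3 : h0 rx < b2 + h0 ry)
    (q0 : b1 + b2 + b3 + h0 ra + h0 rb < π) (l5 : h0 ry < b3 + h0 rb)
    (cax : ch ra rx b1 < 2) (cay : ch ra ry (b1 + b2) < 2) (cxy : ch rx ry b2 < 2)
    (uy : un ry ra (b1 + b2) + un ry rb b3 < π)
    (hsum : b1 + b2 + b3 = π - e) (he : b2 < e) (hA : e ≤ b1 + b2)
    (cG : ch ra rb (π - e) ≤ 2) (hc : ch rx ry (2 * e - b2) ≤ 2)
    (hT1 : tq ra rx b1 ≤ tq rx ry b2) (hK : h0 rx + W ≤ h0 ry + V) :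
    h0 ra + h0 rb + hd ra rx b1 + hd rx ry b2 + W ≤
      hd ra rb (π - e) + hd ra ry (b1 + b2) + V + hd rx ry (2 * e - b2) := by
  have hp := Real.pi_pos
  have he2 : e ≤ π / 2 := by linarith
  have pa := h0_pos88 ra0
  have pb := h0_pos88 rb0
  have cy := hc88 (ra := ra) (ry := ry) (rb := rb) (A := b1 + b2) (b3 := b3) (e := e) ra0
    ry0 rb0 (by linarith) b30 (by linarith) (by linarith) he2 (by linarith) uy
  have sa := h0_sin88 ra0 ra2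
  have sb := h0_sin88 rb0 rb2
  have sy := h0_sin88 ry0 ry2
  have K1 := tq_cmp55 ra0 ra2 rx0 rx2 ry0 ry2 b10 (by linarith) b20 (by linarith) cax cxy hT1
  exact Pool.Agent.Helper55.YX.yx_half (a := h0 ra) (b := h0 rb) (x := h0 rx) (y := h0 ry)
    (X := hd ra rx b1) (Z := hd rx ry b2) (W := W) (Z' := hd rx ry (2 * e - b2))
    (Y := hd ra ry (b1 + b2)) (V := V) (G := hd ra rb (π - e)) (b1 := b1) (b2 := b2) (e := e)
    pa (h0_le88 _) pb (h0_le88 _) (h0_pos88 ry0) (h0_le88 _) (h0_mono88 hyx) (by linarith) b20 he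
    he2 hA (by linarith) (hd_pos55 rx0 b10 (by linarith)) (hd_lt55 cax)
    (hd_pos55 ry0 b20 (by linarith)) (hd_lt55 cxy) (hd_nonneg88 _ _ _) (hd_le88 _ _ _)
    (hd_nonneg88 _ _ _) (hd_le88 _ _ _) (hd_nonneg88 _ _ _) (hd_le88 _ _ _)
    (hd_sq55 ra0 ra2 rx0 rx2 cax.le) (hd_sq55 rx0 rx2 ry0 ry2 cxy.le)
    (hd_sq55 rx0 rx2 ry0 ry2 hc) (hd_sq55 ra0 ra2 ry0 ry2 cay.le)
    (hd_sq55 ra0 ra2 rb0 rb2 cG) (by linarith) (by linarith)
    (by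
      rw [sa, sb, sy]
      have e1 : π - e - (b1 + b2) = π - (b1 + b2 + e) := by ring
      rw [e1, Real.sin_pi_sub]
      nlinarith [cy])
    hK K1

theorem tq_symm55 (r s θ : ℝ) : tq r s θ = tq s r θ := by
  unfold tq
  rw [ch_symm88, hd_symm88]
  congr 1
  ring

/-- both halves -/
theorem yxh {ra rx ry rb b1 b2 b3 e : ℝ} (hq : WQD ra rx ry rb b1 b2 b3)
    (hsum : b1 + b2 + b3 = π - e) (he : b2 < e)
    (h : (ry ≤ rx ∧ e ≤ b1 + b2) ∨ (rx ≤ ry ∧ e ≤ b2 + b3))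
    (hc : ch rx ry (2 * e - b2) ≤ 2) (hT1 : tq ra rx b1 ≤ tq rx ry b2)
    (hT2 : tq ry rb b3 ≤ tq rx ry b2) :
    h0 ra + h0 rb + hd ra rx b1 + hd rx ry b2 + hd ry rb b3 ≤
      hd ra rb (b1 + b2 + b3) + hd ra ry (b1 + b2) + hd rx rb (b2 + b3) +
        hd rx ry (2 * e - b2) := by
  have hG : ch ra rb (π - e) ≤ 2 := by rw [← hsum]; exact hq.cab2.le
  rcases h with ⟨h1, h2⟩ | ⟨h1, h2⟩
  · have := yxh1 (V := hd rx rb (b2 + b3)) (W := hd ry rb b3) hq.ra0 hq.ra2 hq.rx0 hq.rx2 hq.ry0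
      hq.ry2 hq.rb0 hq.rb2 hq.b10 hq.b20 hq.b30 h1 hq.l3 hq.q0 hq.l5 hq.cax2 hq.cay2 hq.cxy2
      (by have := hq.uy1; have := hq.uy2; linarith) hsum he h2 hG hc hT1 hq.k1.le
    rw [hsum]
    linarith
  · have e1 : b3 + b2 = b2 + b3 := by ring
    have hT2' : tq rb ry b3 ≤ tq ry rx b2 := by
      rw [tq_symm55 rb ry, tq_symm55 ry rx]
      exact hT2
    have := yxh1 (V := hd ra ry (b1 + b2)) (W := hd ra rx b1) hq.rb0 hq.rb2 hq.ry0 hq.ry2 hq.rx0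
      hq.rx2 hq.ra0 hq.ra2 hq.b30 hq.b20 hq.b10 h1 (by have := hq.l4; linarith)
      (by have := hq.q0; linarith) (by have := hq.l2; linarith)
      (by rw [ch_symm88]; exact hq.cyb2) (by rw [ch_symm88, e1]; exact hq.cxb2)
      (by rw [ch_symm88]; exact hq.cxy2)
      (by have := hq.ux1; have := hq.ux2; rw [e1]; linarith) (by linarith) he
      (by linarith) (by rw [ch_symm88]; exact hG) (by rw [ch_symm88]; exact hc) hT2' hq.k2.le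
    rw [hd_symm88 rb ra, hd_symm88 rb ry, hd_symm88 ry rx, hd_symm88 ry rx, hd_symm88 rb rx,
      e1] at this
    rw [hsum]
    linarith

/-- THE REMAINING CASE of row KYE: `ρ_y ≤ ρ_x`, `A < e` or the mirror -/
def ST_KYEQ : Prop := ∀ ra rx ry rb b1 b2 b3 e : ℝ, WQD ra rx ry rb b1 b2 b3 →
  b1 + b2 + b3 = π - e → b2 < e → ry ≤ rx → b1 + b2 < e → ch rx ry (2 * e - b2) < 2 →
  hd rx ry (2 * e - b2) < h0 rx + h0 ry →
  tq ra rx b1 ≤ tq rx ry b2 → tq ry rb b3 ≤ tq rx ry b2 →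
  h0 ra + h0 rb + hd ra rx b1 + hd rx ry b2 + hd ry rb b3 ≤
    hd ra rb (b1 + b2 + b3) + hd ra ry (b1 + b2) + hd rx rb (b2 + b3) + hd rx ry (2 * e - b2)

end E5
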