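import Mathlib
import Pool.Agent.Helper72.EF.FourPT

/-!
MP_efd95c_co, wheels: the slack pattern `{yx}`. Pure real inequalities in half arcs.
-/

set_option autoImplicit false

namespace Pool.Agent.Helper55.YX

open Real

/-- the half angle form of the law of cosines -/
theorem lawh (s t θ : ℝ) : s ^ 2 + t ^ 2 - 2 * s * t * cos θ =
    (s - t) ^ 2 + 4 * s * t * sin (θ / 2) ^ 2 := by
  have h : cos θ = 1 - 2 * sin (θ / 2) ^ 2 := by
    have h1 : cos θ = cos (2 * (θ / 2)) := by congr 1; ring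
    rw [h1, cos_two_mul, ← sin_sq_add_cos_sq (θ / 2)]
    ring
  rw [h]
  ring

/-- ratio of two chords with the same radii -/
theorem chord_ratio {s t P Q S T : ℝ}
    (hS : 0 ≤ S) (hST : S ≤ T) (hT : 0 ≤ T) (hP : 0 ≤ P)
    (eP : P ^ 2 = (s - t) ^ 2 + 4 * s * t * S ^ 2)
    (eQ : Q ^ 2 = (s - t) ^ 2 + 4 * s * t * T ^ 2) : Q * S ≤ P * T := by
  have h1 : (Q * S) ^ 2 ≤ (P * T) ^ 2 := by
    rw [mul_pow, mul_pow, eP, eQ]
    have h2 : S ^ 2 ≤ T ^ 2 := pow_le_pow_left₀ hS hST 2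
    nlinarith [mul_nonneg (sq_nonneg (s - t)) (sub_nonneg.mpr h2)]
  exact (abs_le_of_sq_le_sq' h1 (mul_nonneg hP hT)).2

/-- the trigonometric core of N2 -/
theorem trig_core {b1 b2 e : ℝ} (hb2 : 0 ≤ b2) (he : b2 ≤ e) (he1 : e ≤ π / 2)
    (hb1 : e - b2 ≤ b1) (hb1' : b1 ≤ π - e) :
    cos (b2 / 2) * cos (b1 / 2 - (e - b2) / 4) ≤
      2 * cos (b1 / 2) * cos ((e - b2) / 4) * cos (e / 2) := by
  have hpi := pi_pos
  have he0 : 0 ≤ e := hb2.trans he
  -- v = e / 4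
  have hv : cos (e / 2) * sin (e / 4) ≤ sin (e / 2) * cos (e / 4) * (2 * cos (e / 2) - 1) := by
    have s4 : 0 ≤ sin (e / 4) := sin_nonneg_of_nonneg_of_le_pi (by linarith) (by linarith)
    have e1 : cos e = 2 * cos (e / 2) ^ 2 - 1 := by
      rw [← cos_two_mul]; congr 1; ring
    have hce : 0 ≤ cos e := cos_nonneg_of_mem_Icc ⟨by linarith, by linarith⟩
    have e3 : sin (e / 2) = 2 * sin (e / 4) * cos (e / 4) := by
      rw [← sin_two_mul]; congr 1; ring
    have e4 : cos (e / 2) = 2 * cos (e / 4) ^ 2 - 1 := by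
      rw [← cos_two_mul]; congr 1; ring
    set c := cos (e / 2) with hc
    have e5 : cos (e / 4) ^ 2 = (1 + c) / 2 := by linarith
    rw [e3]
    have e6 : 2 * sin (e / 4) * cos (e / 4) * cos (e / 4) * (2 * c - 1) -
        c * sin (e / 4) = sin (e / 4) * (2 * c ^ 2 - 1) := by
      have : 2 * sin (e / 4) * cos (e / 4) * cos (e / 4) * (2 * c - 1) =
          2 * sin (e / 4) * (2 * c - 1) * cos (e / 4) ^ 2 := by ring
      rw [this, e5]
      ring
    have := mul_nonneg s4 hce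
    rw [e1] at this
    linarith
  -- monotonicity
  have hu1 : sin (b1 / 2) ≤ cos (e / 2) := by
    rw [← sin_pi_div_two_sub]
    exact sin_le_sin_of_le_of_le_pi_div_two (by linarith) (by linarith) (by linarith)
  have hu2 : sin (e / 2) ≤ cos (b1 / 2) := by
    rw [← cos_pi_div_two_sub]
    exact cos_le_cos_of_nonneg_of_le_pi (by linarith) (by linarith) (by linarith)
  have hw1 : sin ((e - b2) / 4) ≤ sin (e / 4) :=
    sin_le_sin_of_le_of_le_pi_div_two (by linarith) (by linarith) (by linarith)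
  have hw2 : cos (e / 4) ≤ cos ((e - b2) / 4) :=
    cos_le_cos_of_nonneg_of_le_pi (by linarith) (by linarith) (by linarith)
  have hsu : 0 ≤ sin (b1 / 2) := sin_nonneg_of_nonneg_of_le_pi (by linarith) (by linarith)
  have hcu : 0 ≤ cos (b1 / 2) := cos_nonneg_of_mem_Icc ⟨by linarith, by linarith⟩
  have hsw : 0 ≤ sin ((e - b2) / 4) := sin_nonneg_of_nonneg_of_le_pi (by linarith) (by linarith)
  have hcw : 0 ≤ cos ((e - b2) / 4) := cos_nonneg_of_mem_Icc ⟨by linarith, by linarith⟩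
  have hce4 : 0 ≤ cos (e / 4) := cos_nonneg_of_mem_Icc ⟨by linarith, by linarith⟩
  have hg : 0 ≤ 2 * cos (e / 2) - 1 := by
    have : cos (π / 3) ≤ cos (e / 2) :=
      cos_le_cos_of_nonneg_of_le_pi (by linarith) (by linarith) (by linarith)
    rw [cos_pi_div_three] at this
    linarith
  have hmain : sin (b1 / 2) * sin ((e - b2) / 4) ≤
      cos (b1 / 2) * cos ((e - b2) / 4) * (2 * cos (e / 2) - 1) := by
    calc sin (b1 / 2) * sin ((e - b2) / 4) ≤ cos (e / 2) * sin (e / 4) :=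
          mul_le_mul hu1 hw1 hsw (hsu.trans hu1)
      _ ≤ sin (e / 2) * cos (e / 4) * (2 * cos (e / 2) - 1) := hv
      _ ≤ cos (b1 / 2) * cos ((e - b2) / 4) * (2 * cos (e / 2) - 1) :=
          mul_le_mul_of_nonneg_right (mul_le_mul hu2 hw2 hce4 hcu) hg
  have hcs : cos (b1 / 2 - (e - b2) / 4) =
      cos (b1 / 2) * cos ((e - b2) / 4) + sin (b1 / 2) * sin ((e - b2) / 4) := cos_sub _ _
  have hcs0 : 0 ≤ cos (b1 / 2 - (e - b2) / 4) := by
    rw [hcs]
    positivity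
  calc cos (b2 / 2) * cos (b1 / 2 - (e - b2) / 4) ≤ 1 * cos (b1 / 2 - (e - b2) / 4) :=
        mul_le_mul_of_nonneg_right (cos_le_one _) hcs0
    _ ≤ _ := by
        rw [hcs]
        linarith

/-- LEMMA N2 -/
theorem n2 {a x y X X' Z Z' b1 b2 e : ℝ}
    (ha : 0 < a) (ha1 : a ≤ π / 2) (hx : 0 < x) (hx1 : x ≤ π / 2) (hy : 0 < y) (hy1 : y ≤ π / 2)
    (hb2 : 0 < b2) (he : b2 < e) (he1 : e ≤ π / 2) (hb1 : e - b2 ≤ b1) (hb1' : b1 ≤ π - e)
    (hX0 : 0 < X) (hX1 : X < π / 2) (hX'0 : 0 ≤ X') (hX'1 : X' ≤ π / 2)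
    (hZ0 : 0 < Z) (hZ1 : Z < π / 2) (hZ'0 : 0 ≤ Z') (hZ'1 : Z' ≤ π / 2)
    (eX : sin X ^ 2 = sin a ^ 2 + sin x ^ 2 - 2 * sin a * sin x * cos b1)
    (eX' : sin X' ^ 2 = sin a ^ 2 + sin x ^ 2 - 2 * sin a * sin x * cos (b1 - (e - b2)))
    (eZ : sin Z ^ 2 = sin x ^ 2 + sin y ^ 2 - 2 * sin x * sin y * cos b2)
    (eZ' : sin Z' ^ 2 = sin x ^ 2 + sin y ^ 2 - 2 * sin x * sin y * cos (2 * e - b2))
    (K : sin a * sin b1 * sin (2 * Z) ≤ sin y * sin b2 * sin (2 * X)) :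
    X + Z ≤ X' + Z' := by
  have hpi := pi_pos
  have hb10 : 0 < b1 := by linarith
  have sa : 0 < sin a := sin_pos_of_pos_of_lt_pi ha (by linarith)
  have sx : 0 < sin x := sin_pos_of_pos_of_lt_pi hx (by linarith)
  have sy : 0 < sin y := sin_pos_of_pos_of_lt_pi hy (by linarith)
  have sX : 0 < sin X := sin_pos_of_pos_of_lt_pi hX0 (by linarith)
  have sZ : 0 < sin Z := sin_pos_of_pos_of_lt_pi hZ0 (by linarith)
  have cX : 0 < cos X := cos_pos_of_mem_Ioo ⟨by linarith, hX1⟩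
  have cZ : 0 < cos Z := cos_pos_of_mem_Ioo ⟨by linarith, hZ1⟩
  have sX' : 0 ≤ sin X' := sin_nonneg_of_nonneg_of_le_pi hX'0 (by linarith)
  have sZ' : 0 ≤ sin Z' := sin_nonneg_of_nonneg_of_le_pi hZ'0 (by linarith)
  -- half angles
  have hS : 0 ≤ sin ((b1 - (e - b2)) / 2) :=
    sin_nonneg_of_nonneg_of_le_pi (by linarith) (by linarith)
  have hT : 0 < sin (b1 / 2) := sin_pos_of_pos_of_lt_pi (by linarith) (by linarith)
  have hST : sin ((b1 - (e - b2)) / 2) ≤ sin (b1 / 2) :=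
    sin_le_sin_of_le_of_le_pi_div_two (by linarith) (by linarith) (by linarith)
  have hU : 0 < sin (b2 / 2) := sin_pos_of_pos_of_lt_pi (by linarith) (by linarith)
  have hV : 0 < sin ((2 * e - b2) / 2) := sin_pos_of_pos_of_lt_pi (by linarith) (by linarith)
  have hUV : sin (b2 / 2) ≤ sin ((2 * e - b2) / 2) :=
    sin_le_sin_of_le_of_le_pi_div_two (by linarith) (by linarith) (by linarith)
  have eX1 := eX
  have eX1' := eX'
  have eZ1 := eZ
  have eZ1' := eZ'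
  rw [lawh] at eX1 eX1' eZ1 eZ1'
  -- chord ratios
  have c1 : sin X * sin ((b1 - (e - b2)) / 2) ≤ sin X' * sin (b1 / 2) :=
    chord_ratio hS hST hT.le sX' eX1' eX1
  have c2 : sin Z' * sin (b2 / 2) ≤ sin Z * sin ((2 * e - b2) / 2) :=
    chord_ratio hU.le hUV hV.le sZ.le eZ1 eZ1'
  -- monotonicity
  have hXX : X' ≤ X := by
    refine Pool.Agent.Helper72.EF.le_of_sin_sq hX'1 hX0.le ?_
    rw [eX1, eX1']
    nlinarith [mul_pos sa sx, pow_le_pow_left₀ hS hST 2]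
  have hZZ : Z ≤ Z' := by
    refine Pool.Agent.Helper72.EF.le_of_sin_sq hZ1.le hZ'0 ?_
    rw [eZ1, eZ1']
    nlinarith [mul_pos sx sy, pow_le_pow_left₀ hU.le hUV 2]
  have cXX : cos X ≤ cos X' := cos_le_cos_of_nonneg_of_le_pi hX'0 (by linarith) hXX
  have cZZ : cos Z' ≤ cos Z := cos_le_cos_of_nonneg_of_le_pi hZ0.le (by linarith) hZZ
  -- abbreviations
  set P := sin (X - X') with hP
  set Q := sin (Z' - Z) with hQ
  set SX := sin (X + X') with hSX
  set SZ := sin (Z' + Z) with hSZ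
  have hSXpos : 0 < SX := sin_pos_of_pos_of_lt_pi (by linarith) (by linarith)
  have hP0 : 0 ≤ P := sin_nonneg_of_nonneg_of_le_pi (by linarith) (by linarith)
  have hQ0 : 0 ≤ Q := sin_nonneg_of_nonneg_of_le_pi (by linarith) (by linarith)
  have E1 : sin (2 * X) * (sin (b1 / 2) + sin ((b1 - (e - b2)) / 2)) ≤ 2 * sin (b1 / 2) * SX := by
    have h1 : SX = sin X * cos X' + cos X * sin X' := sin_add _ _
    rw [h1, sin_two_mul]
    nlinarith [mul_le_mul_of_nonneg_left cXX (mul_pos hT sX).le,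
      mul_le_mul_of_nonneg_left c1 cX.le]
  have E2 : 2 * SZ * sin (b2 / 2) ≤
      sin (2 * Z) * (sin (b2 / 2) + sin ((2 * e - b2) / 2)) := by
    have h1 : SZ = sin Z' * cos Z + cos Z' * sin Z := sin_add _ _
    rw [h1, sin_two_mul]
    nlinarith [mul_le_mul_of_nonneg_left cZZ (mul_pos hU sZ).le,
      mul_le_mul_of_nonneg_left c2 cZ.le]
  -- the two differences
  have pX : SX * P = 4 * sin a * sin x * (sin (b1 - (e - b2) / 2) * sin ((e - b2) / 2)) := by
    have h1 : SX * P = sin X ^ 2 - sin X' ^ 2 := (Pool.Agent.Helper72.EF.sin_sq_sub X X').symm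
    have h2 : cos (b1 - (e - b2)) - cos b1 =
        2 * (sin (b1 - (e - b2) / 2) * sin ((e - b2) / 2)) := by
      have a1 : cos (b1 - (e - b2)) = cos (b1 - (e - b2) / 2) * cos ((e - b2) / 2) +
          sin (b1 - (e - b2) / 2) * sin ((e - b2) / 2) := by
        rw [← cos_sub]; congr 1; ring
      have a2 : cos b1 = cos (b1 - (e - b2) / 2) * cos ((e - b2) / 2) -
          sin (b1 - (e - b2) / 2) * sin ((e - b2) / 2) := by
        rw [← cos_add]; congr 1; ring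
      rw [a1, a2]; ring
    rw [h1, eX, eX']
    linear_combination (2 * sin a * sin x) * h2
  have pZ : SZ * Q = 4 * sin x * sin y * (sin e * sin (e - b2)) := by
    have h1 : SZ * Q = sin Z' ^ 2 - sin Z ^ 2 := (Pool.Agent.Helper72.EF.sin_sq_sub Z' Z).symm
    have h2 : cos b2 - cos (2 * e - b2) = 2 * (sin e * sin (e - b2)) := by
      have a1 : cos b2 = cos e * cos (e - b2) + sin e * sin (e - b2) := by
        rw [← cos_sub]; congr 1; ring
      have a2 : cos (2 * e - b2) = cos e * cos (e - b2) - sin e * sin (e - b2) := by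
        rw [← cos_add]; congr 1; ring
      rw [a1, a2]; ring
    rw [h1, eZ, eZ']
    linear_combination (2 * sin x * sin y) * h2
  have hA1 : 0 ≤ sin (b1 - (e - b2) / 2) * sin ((e - b2) / 2) :=
    mul_nonneg (sin_nonneg_of_nonneg_of_le_pi (by linarith) (by linarith))
      (sin_nonneg_of_nonneg_of_le_pi (by linarith) (by linarith))
  have hA2 : 0 < sin e * sin (e - b2) :=
    mul_pos (sin_pos_of_pos_of_lt_pi (by linarith) (by linarith))
      (sin_pos_of_pos_of_lt_pi (by linarith) (by linarith))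
  have hsb1 : 0 < sin b1 := sin_pos_of_pos_of_lt_pi hb10 (by linarith)
  have hsb2 : 0 < sin b2 := sin_pos_of_pos_of_lt_pi hb2 (by linarith)
  have hs2Z : 0 < sin (2 * Z) := sin_pos_of_pos_of_lt_pi (by linarith) (by linarith)
  set A1 := sin (b1 - (e - b2) / 2) * sin ((e - b2) / 2) with hA1d
  set A2 := sin e * sin (e - b2) with hA2d
  set σ1 := sin (b1 / 2) + sin ((b1 - (e - b2)) / 2) with hσ1
  set σ2 := sin (b2 / 2) + sin ((2 * e - b2) / 2) with hσ2
  have hσ1p : 0 < σ1 := by positivity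
  have hσ2p : 0 < σ2 := by positivity
  -- first chain
  have F1 : P * sin b1 * sin (2 * Z) * σ1 ≤ 8 * sin x * sin y * A1 * sin b2 * sin (b1 / 2) := by
    have g1 : SX * (P * sin b1 * sin (2 * Z) * σ1) ≤
        SX * (8 * sin x * sin y * A1 * sin b2 * sin (b1 / 2)) := by
      calc SX * (P * sin b1 * sin (2 * Z) * σ1)
          = 4 * sin x * A1 * σ1 * (sin a * sin b1 * sin (2 * Z)) := by
            linear_combination (sin b1 * sin (2 * Z) * σ1) * pX
        _ ≤ 4 * sin x * A1 * σ1 * (sin y * sin b2 * sin (2 * X)) :=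
            mul_le_mul_of_nonneg_left K (by positivity)
        _ = 4 * sin x * sin y * A1 * sin b2 * (sin (2 * X) * σ1) := by ring
        _ ≤ 4 * sin x * sin y * A1 * sin b2 * (2 * sin (b1 / 2) * SX) :=
            mul_le_mul_of_nonneg_left E1 (by positivity)
        _ = SX * (8 * sin x * sin y * A1 * sin b2 * sin (b1 / 2)) := by ring
    exact le_of_mul_le_mul_left g1 hSXpos
  -- second chain
  have F2 : P * (2 * sin b1 * σ1 * A2 * sin (b2 / 2)) ≤
      Q * (2 * A1 * sin b2 * sin (b1 / 2) * σ2) := by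
    have g2 : sin (2 * Z) * (P * (2 * sin b1 * σ1 * A2 * sin (b2 / 2))) ≤
        sin (2 * Z) * (Q * (2 * A1 * sin b2 * sin (b1 / 2) * σ2)) := by
      calc sin (2 * Z) * (P * (2 * sin b1 * σ1 * A2 * sin (b2 / 2)))
          = 2 * A2 * sin (b2 / 2) * (P * sin b1 * sin (2 * Z) * σ1) := by ring
        _ ≤ 2 * A2 * sin (b2 / 2) * (8 * sin x * sin y * A1 * sin b2 * sin (b1 / 2)) :=
            mul_le_mul_of_nonneg_left F1 (by positivity)
        _ = 2 * A1 * sin b2 * sin (b1 / 2) * Q * (2 * SZ * sin (b2 / 2)) := by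
            linear_combination (-4 * A1 * sin b2 * sin (b1 / 2) * sin (b2 / 2)) * pZ
        _ ≤ 2 * A1 * sin b2 * sin (b1 / 2) * Q * (sin (2 * Z) * σ2) :=
            mul_le_mul_of_nonneg_left E2 (by positivity)
        _ = sin (2 * Z) * (Q * (2 * A1 * sin b2 * sin (b1 / 2) * σ2)) := by ring
    exact le_of_mul_le_mul_left g2 hs2Z
  -- the trigonometric inequality
  have T : 2 * A1 * sin b2 * sin (b1 / 2) * σ2 ≤ 2 * sin b1 * σ1 * A2 * sin (b2 / 2) := by
    have tc := trig_core hb2.le he.le he1 hb1 hb1'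
    have q1 : sin (b1 - (e - b2) / 2) =
        2 * sin (b1 / 2 - (e - b2) / 4) * cos (b1 / 2 - (e - b2) / 4) := by
      rw [← sin_two_mul]; congr 1; ring
    have q2 : sin b2 = 2 * sin (b2 / 2) * cos (b2 / 2) := by
      rw [← sin_two_mul]; congr 1; ring
    have q3 : σ2 = 2 * sin (e / 2) * cos ((e - b2) / 2) := by
      have a1 : sin (b2 / 2) = sin (e / 2) * cos ((e - b2) / 2) -
          cos (e / 2) * sin ((e - b2) / 2) := by rw [← sin_sub]; congr 1; ring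
      have a2 : sin ((2 * e - b2) / 2) = sin (e / 2) * cos ((e - b2) / 2) +
          cos (e / 2) * sin ((e - b2) / 2) := by rw [← sin_add]; congr 1; ring
      rw [hσ2, a1, a2]; ring
    have q4 : sin b1 = 2 * sin (b1 / 2) * cos (b1 / 2) := by
      rw [← sin_two_mul]; congr 1; ring
    have q5 : σ1 = 2 * sin (b1 / 2 - (e - b2) / 4) * cos ((e - b2) / 4) := by
      have a1 : sin (b1 / 2) = sin (b1 / 2 - (e - b2) / 4) * cos ((e - b2) / 4) +
          cos (b1 / 2 - (e - b2) / 4) * sin ((e - b2) / 4) := by rw [← sin_add]; congr 1; ring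
      have a2 : sin ((b1 - (e - b2)) / 2) = sin (b1 / 2 - (e - b2) / 4) * cos ((e - b2) / 4) -
          cos (b1 / 2 - (e - b2) / 4) * sin ((e - b2) / 4) := by rw [← sin_sub]; congr 1; ring
      rw [hσ1, a1, a2]; ring
    have q6 : sin e = 2 * sin (e / 2) * cos (e / 2) := by
      rw [← sin_two_mul]; congr 1; ring
    have q7 : sin (e - b2) = 2 * sin ((e - b2) / 2) * cos ((e - b2) / 2) := by
      rw [← sin_two_mul]; congr 1; ring
    have r1 : 0 ≤ sin (b1 / 2 - (e - b2) / 4) :=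
      sin_nonneg_of_nonneg_of_le_pi (by linarith) (by linarith)
    have r2 : 0 ≤ sin ((e - b2) / 2) := sin_nonneg_of_nonneg_of_le_pi (by linarith) (by linarith)
    have r3 : 0 ≤ cos ((e - b2) / 2) := cos_nonneg_of_mem_Icc ⟨by linarith, by linarith⟩
    have r4 : 0 ≤ sin (e / 2) := sin_nonneg_of_nonneg_of_le_pi (by linarith) (by linarith)
    have C0 : 0 ≤ 16 * sin (b1 / 2 - (e - b2) / 4) * sin ((e - b2) / 2) * cos ((e - b2) / 2) *
        sin (b2 / 2) * sin (b1 / 2) * sin (e / 2) := by positivity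
    have L : 2 * A1 * sin b2 * sin (b1 / 2) * σ2 =
        16 * sin (b1 / 2 - (e - b2) / 4) * sin ((e - b2) / 2) * cos ((e - b2) / 2) *
        sin (b2 / 2) * sin (b1 / 2) * sin (e / 2) *
        (cos (b2 / 2) * cos (b1 / 2 - (e - b2) / 4)) := by
      rw [hA1d, q1, q2, q3]; ring
    have R : 2 * sin b1 * σ1 * A2 * sin (b2 / 2) =
        16 * sin (b1 / 2 - (e - b2) / 4) * sin ((e - b2) / 2) * cos ((e - b2) / 2) *
        sin (b2 / 2) * sin (b1 / 2) * sin (e / 2) *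
        (2 * cos (b1 / 2) * cos ((e - b2) / 4) * cos (e / 2)) := by
      rw [hA2d, q4, q5, q6, q7]; ring
    rw [L, R]
    exact mul_le_mul_of_nonneg_left tc C0
  have hW : 0 < 2 * sin b1 * σ1 * A2 * sin (b2 / 2) := by positivity
  have hPQ : P ≤ Q := by
    have h1 : P * (2 * sin b1 * σ1 * A2 * sin (b2 / 2)) ≤
        Q * (2 * sin b1 * σ1 * A2 * sin (b2 / 2)) :=
      F2.trans (mul_le_mul_of_nonneg_left T hQ0)
    exact le_of_mul_le_mul_right h1 hW
  by_contra hcon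
  have hcon' : Z' - Z < X - X' := by linarith [lt_of_not_ge hcon]
  have : Q < P := sin_lt_sin_of_lt_of_le_pi_div_two (by linarith) (by linarith) hcon'
  linarith

/-- the pattern `{yx}`, side `ρ_y ≤ ρ_x` -/
theorem yx_half {a b x y X Z Z' Y G V W b1 b2 e : ℝ}
    (ha : 0 < a) (ha1 : a ≤ π / 2) (hb : 0 < b) (hb' : b ≤ π / 2) (hy : 0 < y)
    (hx1 : x ≤ π / 2) (hyx : y ≤ x) (hxy : x ≤ y + b2)
    (hb2 : 0 < b2) (he : b2 < e) (he1 : e ≤ π / 2) (hA : e ≤ b1 + b2) (hb1' : b1 ≤ π - e)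
    (hX0 : 0 < X) (hX1 : X < π / 2) (hZ0 : 0 < Z) (hZ1 : Z < π / 2)
    (hZ'0 : 0 ≤ Z') (hZ'1 : Z' ≤ π / 2)
    (hG0 : 0 ≤ G) (hG1 : G ≤ π / 2) (hY0 : 0 ≤ Y) (hY1 : Y ≤ π / 2)
    (eX : sin X ^ 2 = sin a ^ 2 + sin x ^ 2 - 2 * sin a * sin x * cos b1)
    (eZ : sin Z ^ 2 = sin x ^ 2 + sin y ^ 2 - 2 * sin x * sin y * cos b2)
    (eZ' : sin Z' ^ 2 = sin x ^ 2 + sin y ^ 2 - 2 * sin x * sin y * cos (2 * e - b2))
    (eY : sin Y ^ 2 = sin a ^ 2 + sin y ^ 2 - 2 * sin a * sin y * cos (b1 + b2))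
    (eG : sin G ^ 2 = sin a ^ 2 + sin b ^ 2 - 2 * sin a * sin b * cos (π - e))
    (hωy : a + y ≤ π - (b1 + b2)) (hωb : e - b ≤ π - (b1 + b2) - y)
    (hc : sin a * sin b * sin e ≤ sin a * sin y * sin (b1 + b2) +
      sin b * sin y * sin (π - e - (b1 + b2)))
    (hK : x + W ≤ y + V)
    (K : sin a * sin b1 * sin (2 * Z) ≤ sin y * sin b2 * sin (2 * X)) :
    a + b + X + Z + W ≤ G + Y + V + Z' := by
  have hpi := pi_pos
  have hx : 0 < x := by linarith
  have sa : 0 < sin a := sin_pos_of_pos_of_lt_pi ha (by linarith)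
  have sx : 0 < sin x := sin_pos_of_pos_of_lt_pi hx (by linarith)
  have hS : 0 ≤ sin ((b1 - (e - b2)) / 2) :=
    sin_nonneg_of_nonneg_of_le_pi (by linarith) (by linarith)
  have hST : sin ((b1 - (e - b2)) / 2) ≤ sin (b1 / 2) :=
    sin_le_sin_of_le_of_le_pi_div_two (by linarith) (by linarith) (by linarith)
  obtain ⟨X', h0, h1, h2⟩ : ∃ X' : ℝ, 0 ≤ X' ∧ X' ≤ π / 2 ∧
      sin X' ^ 2 = sin a ^ 2 + sin x ^ 2 - 2 * sin a * sin x * cos (b1 - (e - b2)) := by
    refine Pool.Agent.Helper72.EF.exists_half ?_ ?_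
    · rw [lawh]
      have := mul_pos sa sx
      positivity
    · have hsX : sin X ^ 2 ≤ 1 := sin_sq_le_one X
      rw [eX] at hsX
      rw [lawh] at hsX ⊢
      nlinarith [mul_pos sa sx, pow_le_pow_left₀ hS hST 2]
  have hn := n2 ha ha1 hx hx1 hy (hyx.trans hx1) hb2 he he1 (by linarith) hb1' hX0 hX1 h0 h1
    hZ0 hZ1 hZ'0 hZ'1 eX h2 eZ eZ' K
  have hP := Pool.Agent.Helper72.EF.thmP' (a := a) (b := b) (y := y) (x := x) (G := G) (Y := Y)
    (X := X') (e := e) (t := e) (φ := π - (b1 + b2)) ha ha1 hb hb' hy hyx hx1 (by linarith)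
    (by linarith) he1 le_rfl he1 (by linarith) hωy hωb hG0 hG1 hY0 hY1 h1
    (by rw [eG, cos_pi_sub]; ring) (by rw [eY, cos_pi_sub]; ring)
    (by
      rw [h2, show π - (b1 + b2) + e = π - (b1 - (e - b2)) by ring, cos_pi_sub]
      ring)
    (by
      have e1 : sin (π - (b1 + b2)) = sin (b1 + b2) := sin_pi_sub _
      have e2 : π - (b1 + b2) - e = π - e - (b1 + b2) := by ring
      rw [e1, e2]
      exact hc)
  linarith

/-- THE PATTERN `{yx}`, both sides: half arcs `a, b, x, y` of the spokes, `X, Z, W` of the hull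
edges `ax, xy, yb` of `q`, `G, Y, V` of `ab, ay, xb`, `Z'` of `xy` at the hub angle `2e - b2` -/
theorem yx {a b x y X Z Z' Y G V W b1 b2 b3 e : ℝ}
    (ha : 0 < a) (ha1 : a ≤ π / 2) (hb : 0 < b) (hb' : b ≤ π / 2) (hx : 0 < x)
    (hx1 : x ≤ π / 2) (hy : 0 < y) (hy1 : y ≤ π / 2) (hxy : x ≤ y + b2) (hyx : y ≤ x + b2)
    (hb2 : 0 < b2) (he : b2 < e) (hA : e ≤ b1 + b2) (hB : e ≤ b2 + b3)
    (hsum : b1 + b2 + b3 = π - e)
    (hX0 : 0 < X) (hX1 : X < π / 2) (hZ0 : 0 < Z) (hZ1 : Z < π / 2) (hW0 : 0 < W)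
    (hW1 : W < π / 2) (hZ'0 : 0 ≤ Z') (hZ'1 : Z' ≤ π / 2)
    (hG0 : 0 ≤ G) (hG1 : G ≤ π / 2) (hY0 : 0 ≤ Y) (hY1 : Y ≤ π / 2)
    (hV0 : 0 ≤ V) (hV1 : V ≤ π / 2)
    (eX : sin X ^ 2 = sin a ^ 2 + sin x ^ 2 - 2 * sin a * sin x * cos b1)
    (eZ : sin Z ^ 2 = sin x ^ 2 + sin y ^ 2 - 2 * sin x * sin y * cos b2)
    (eW : sin W ^ 2 = sin b ^ 2 + sin y ^ 2 - 2 * sin b * sin y * cos b3)
    (eZ' : sin Z' ^ 2 = sin x ^ 2 + sin y ^ 2 - 2 * sin x * sin y * cos (2 * e - b2))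
    (eY : sin Y ^ 2 = sin a ^ 2 + sin y ^ 2 - 2 * sin a * sin y * cos (b1 + b2))
    (eV : sin V ^ 2 = sin b ^ 2 + sin x ^ 2 - 2 * sin b * sin x * cos (b2 + b3))
    (eG : sin G ^ 2 = sin a ^ 2 + sin b ^ 2 - 2 * sin a * sin b * cos (π - e))
    (hωy : a + y ≤ π - (b1 + b2)) (hωb : e - b ≤ π - (b1 + b2) - y)
    (hωx : b + x ≤ π - (b2 + b3)) (hωa : e - a ≤ π - (b2 + b3) - x)
    (hcy : sin a * sin b * sin e ≤ sin a * sin y * sin (b1 + b2) + sin b * sin y * sin b3)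
    (hcx : sin a * sin b * sin e ≤ sin b * sin x * sin (b2 + b3) + sin a * sin x * sin b1)
    (hK1 : x + W ≤ y + V) (hK2 : y + X ≤ x + Y)
    (K1 : sin a * sin b1 * sin (2 * Z) ≤ sin y * sin b2 * sin (2 * X))
    (K2 : sin b * sin b3 * sin (2 * Z) ≤ sin x * sin b2 * sin (2 * W)) :
    a + b + X + Z + W ≤ G + Y + V + Z' := by
  have hpi := pi_pos
  rcases le_total y x with h | h
  · refine yx_half ha ha1 hb hb' hy hx1 h hxy hb2 he (by linarith) hA (by linarith) hX0 hX1 hZ0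
      hZ1 hZ'0 hZ'1 hG0 hG1 hY0 hY1 eX eZ eZ' eY eG hωy hωb ?_ hK1 K1
    rw [show π - e - (b1 + b2) = b3 by linarith]
    exact hcy
  · have e1 : b3 + b2 = b2 + b3 := add_comm _ _
    have := yx_half (a := b) (b := a) (x := y) (y := x) (X := W) (Z := Z) (Z' := Z') (Y := V)
      (G := G) (V := Y) (W := X) (b1 := b3) (b2 := b2) (e := e) hb hb' ha ha1 hx hy1 h hyx hb2 he
      (by linarith) (by linarith) (by linarith) hW0 hW1 hZ0 hZ1 hZ'0 hZ'1 hG0 hG1 hV0 hV1 eW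
      (by rw [eZ]; ring) (by rw [eZ']; ring) (by rw [e1]; exact eV) (by rw [eG]; ring)
      (by rw [e1]; exact hωx) (by rw [e1]; exact hωa)
      (by
        rw [e1, show π - e - (b2 + b3) = b1 by linarith]
        linarith)
      hK2 K2
    linarith

end Pool.Agent.Helper55.YX
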