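import Pool.Agent.Helper88.E5.K0
import Pool.Agent.Helper55.E5.YX

/-!
MP_efd95c_co, wheels of type C: row KYX (only the rim edge `yx` is slack, all spokes tight).
-/

set_option autoImplicit false
set_option linter.unusedVariables false

open Real

namespace E5

theorem hd_sin55 {r s θ : ℝ} (hc : ch r s θ ≤ 2) : Real.sin (hd r s θ) = ch r s θ / 2 := by
  unfold hd
  have := ch_nonneg88 r s θ
  exact Real.sin_arcsin (by linarith) (by linarith)

/-- the law of cosines in half arcs -/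
theorem hd_sq55 {r s θ : ℝ} (hr : 0 < r) (hr2 : r < 2) (hs : 0 < s) (hs2 : s < 2)
    (hc : ch r s θ ≤ 2) : Real.sin (hd r s θ) ^ 2 = Real.sin (h0 r) ^ 2 + Real.sin (h0 s) ^ 2 -
      2 * Real.sin (h0 r) * Real.sin (h0 s) * Real.cos θ := by
  rw [hd_sin55 hc, h0_sin88 hr hr2, h0_sin88 hs hs2, div_pow, ch_sq]
  ring

theorem hd_pos55 {r s θ : ℝ} (hs : 0 < s) (h0 : 0 < θ) (h1 : θ < π) : 0 < hd r s θ := by
  unfold hd
  have := tri_ch_pos (r := r) hs h0 h1
  exact Real.arcsin_pos.2 (by linarith)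

theorem hd_lt55 {r s θ : ℝ} (hc : ch r s θ < 2) : hd r s θ < π / 2 := by
  unfold hd
  exact Real.arcsin_lt_pi_div_two.2 (by linarith)

theorem tq_eq55 {r s θ : ℝ} (hc : ch r s θ ≤ 2) :
    tq r s θ = r * s * Real.sin θ / Real.sin (2 * hd r s θ) := by
  unfold tq
  rw [Real.sin_two_mul, hd_sin55 hc]
  congr 1
  ring

/-- comparison of two torques of `q` with a common point -/
theorem tq_cmp55 {r m s α β : ℝ} (hr : 0 < r) (hr2 : r < 2) (hm : 0 < m) (hm2 : m < 2)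
    (hs : 0 < s) (hs2 : s < 2) (α0 : 0 < α) (α1 : α < π) (β0 : 0 < β) (β1 : β < π)
    (h1 : ch r m α < 2) (h2 : ch m s β < 2) (h : tq r m α ≤ tq m s β) :
    Real.sin (h0 r) * Real.sin α * Real.sin (2 * hd m s β) ≤
      Real.sin (h0 s) * Real.sin β * Real.sin (2 * hd r m α) := by
  rw [tq_eq55 h1.le, tq_eq55 h2.le] at h
  have a0 := hd_pos55 (r := r) hm α0 α1
  have a1 := hd_lt55 h1
  have c0 := hd_pos55 (r := m) hs β0 β1
  have c1 := hd_lt55 h2
  have s1 : 0 < Real.sin (2 * hd r m α) :=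
    Real.sin_pos_of_pos_of_lt_pi (by linarith) (by linarith)
  have s2 : 0 < Real.sin (2 * hd m s β) :=
    Real.sin_pos_of_pos_of_lt_pi (by linarith) (by linarith)
  rw [div_le_div_iff₀ s1 s2] at h
  rw [h0_sin88 hr hr2, h0_sin88 hs hs2]
  have h3 : m * (r * Real.sin α * Real.sin (2 * hd m s β)) ≤
      m * (s * Real.sin β * Real.sin (2 * hd r m α)) := by
    have e1 : m * (r * Real.sin α * Real.sin (2 * hd m s β)) =
        r * m * Real.sin α * Real.sin (2 * hd m s β) := by ring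
    have e2 : m * (s * Real.sin β * Real.sin (2 * hd r m α)) =
        m * s * Real.sin β * Real.sin (2 * hd r m α) := by ring
    rw [e1, e2]
    exact h
  have h4 := le_of_mul_le_mul_left h3 hm
  linarith

/-- the pattern `yx` in the fan of `q`, `e = π - Φ` -/
theorem yxq {ra rx ry rb b1 b2 b3 e : ℝ} (hq : WQD ra rx ry rb b1 b2 b3)
    (hsum : b1 + b2 + b3 = π - e) (he : b2 < e) (hA : e ≤ b1 + b2) (hB : e ≤ b2 + b3)
    (hc : ch rx ry (2 * e - b2) < 2) (hT1 : tq ra rx b1 ≤ tq rx ry b2)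
    (hT2 : tq ry rb b3 ≤ tq rx ry b2) :
    h0 ra + h0 rb + hd ra rx b1 + hd rx ry b2 + hd ry rb b3 ≤
      hd ra rb (b1 + b2 + b3) + hd ra ry (b1 + b2) + hd rx rb (b2 + b3) +
        hd rx ry (2 * e - b2) := by
  have hp := Real.pi_pos
  have b10 := hq.b10
  have b20 := hq.b20
  have b30 := hq.b30
  have bs := hq.bs
  have he2 : e ≤ π / 2 := by linarith
  have l2 := hq.l2
  have l3 := hq.l3
  have l4 := hq.l4
  have l5 := hq.l5
  have q0 := hq.q0
  have hcW : ch rb ry b3 < 2 := by rw [ch_symm88]; exact hq.cyb2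
  have hcV : ch rb rx (b2 + b3) < 2 := by rw [ch_symm88]; exact hq.cxb2
  have cy := hc88 (ra := ra) (ry := ry) (rb := rb) (A := b1 + b2) (b3 := b3) (e := e) hq.ra0
    hq.ry0 hq.rb0 (by linarith) b30 (by linarith) (by linarith) he2 (by linarith)
    (by have := hq.uy1; have := hq.uy2; linarith)
  have cx := hc88 (ra := rb) (ry := rx) (rb := ra) (A := b3 + b2) (b3 := b1) (e := e) hq.rb0
    hq.rx0 hq.ra0 (by linarith) b10 (by linarith) (by linarith) he2 (by linarith)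
    (by
      have := hq.ux1
      have := hq.ux2
      have e1 : b3 + b2 = b2 + b3 := by ring
      rw [e1]
      linarith)
  have e1 : Real.sin (b1 + b2 + e) = Real.sin b3 := by
    rw [← Real.sin_pi_sub b3]
    congr 1
    linarith
  have e2 : Real.sin (b3 + b2 + e) = Real.sin b1 := by
    rw [← Real.sin_pi_sub b1]
    congr 1
    linarith
  rw [e1] at cy
  rw [e2, show b3 + b2 = b2 + b3 by ring] at cx
  have sa := h0_sin88 hq.ra0 hq.ra2
  have sb := h0_sin88 hq.rb0 hq.rb2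
  have sx := h0_sin88 hq.rx0 hq.rx2
  have sy := h0_sin88 hq.ry0 hq.ry2
  have hT2' : tq rb ry b3 ≤ tq ry rx b2 := by
    have s1 : tq rb ry b3 = tq ry rb b3 := by
      unfold tq
      rw [ch_symm88, hd_symm88]
      congr 1
      ring
    have s2 : tq ry rx b2 = tq rx ry b2 := by
      unfold tq
      rw [ch_symm88, hd_symm88]
      congr 1
      ring
    rw [s1, s2]
    exact hT2
  have hcyx : ch ry rx b2 < 2 := by rw [ch_symm88]; exact hq.cxy2
  have K1 := tq_cmp55 hq.ra0 hq.ra2 hq.rx0 hq.rx2 hq.ry0 hq.ry2 b10 (by linarith) b20 (by linarith)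
    hq.cax2 hq.cxy2 hT1
  have K2 := tq_cmp55 hq.rb0 hq.rb2 hq.ry0 hq.ry2 hq.rx0 hq.rx2 b30 (by linarith) b20 (by linarith)
    hcW hcyx hT2'
  rw [hd_symm88 ry rx] at K2
  have hGe : hd ra rb (b1 + b2 + b3) = hd ra rb (π - e) := by rw [hsum]
  have hm := Pool.Agent.Helper55.YX.yx (a := h0 ra) (b := h0 rb) (x := h0 rx) (y := h0 ry)
    (X := hd ra rx b1) (Z := hd rx ry b2) (W := hd rb ry b3) (Z' := hd rx ry (2 * e - b2))
    (Y := hd ra ry (b1 + b2)) (V := hd rb rx (b2 + b3)) (G := hd ra rb (π - e))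
    (b1 := b1) (b2 := b2) (b3 := b3) (e := e)
    (h0_pos88 hq.ra0) (h0_le88 _) (h0_pos88 hq.rb0) (h0_le88 _) (h0_pos88 hq.rx0) (h0_le88 _)
    (h0_pos88 hq.ry0) (h0_le88 _) (by linarith) (by linarith) b20 he hA hB hsum
    (hd_pos55 hq.rx0 b10 (by linarith)) (hd_lt55 hq.cax2)
    (hd_pos55 hq.ry0 b20 (by linarith)) (hd_lt55 hq.cxy2)
    (hd_pos55 hq.ry0 b30 (by linarith)) (hd_lt55 hcW)
    (hd_nonneg88 _ _ _) (hd_le88 _ _ _) (hd_nonneg88 _ _ _) (hd_le88 _ _ _)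
    (hd_nonneg88 _ _ _) (hd_le88 _ _ _) (hd_nonneg88 _ _ _) (hd_le88 _ _ _)
    (hd_sq55 hq.ra0 hq.ra2 hq.rx0 hq.rx2 hq.cax2.le)
    (hd_sq55 hq.rx0 hq.rx2 hq.ry0 hq.ry2 hq.cxy2.le)
    (hd_sq55 hq.rb0 hq.rb2 hq.ry0 hq.ry2 hcW.le)
    (hd_sq55 hq.rx0 hq.rx2 hq.ry0 hq.ry2 hc.le)
    (hd_sq55 hq.ra0 hq.ra2 hq.ry0 hq.ry2 hq.cay2.le)
    (hd_sq55 hq.rb0 hq.rb2 hq.rx0 hq.rx2 hcV.le)
    (hd_sq55 hq.ra0 hq.ra2 hq.rb0 hq.rb2 (by rw [← hsum]; exact hq.cab2.le))
    (by linarith) (by linarith) (by linarith) (by linarith)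
    (by rw [sa, sb, sy]; nlinarith [cy])
    (by rw [sa, sb, sx]; nlinarith [cx])
    (by rw [hd_symm88 rb ry, hd_symm88 rb rx]; exact hq.k1.le) hq.k2.le K1 K2
  rw [hGe]
  rw [hd_symm88 rb ry, hd_symm88 rb rx] at hm
  linarith

theorem st_KYX (hTOR : ST_TOR) : ST_KYX := by
  intro ra rx ry rb b1 b2 b3 t2 w0a w0x w0y w0b way wxb wab χa χx χy χb hD hW hlt
  have hp := Real.pi_pos
  have hq := hD.q
  have b10 := hq.b10
  have b20 := hq.b20
  have b30 := hq.b30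
  have bs := hq.bs
  obtain ⟨-, -, -, h3, h4⟩ := hTOR _ _ _ _ _ _ _ _ _ _ _ _ _ _ _ _ _ _ _ _ _ _ _ _ _ _ _ hD hW
  have hf := hD.fyx rfl rfl rfl rfl rfl rfl rfl
  have ht := hD.p.ts
  have ht2 : t2 = 2 * (π - (b1 + b2 + b3)) - b2 := by linarith
  have s1 : 0 ≤ Real.sin (b2 + b3) :=
    Real.sin_nonneg_of_nonneg_of_le_pi (by linarith) (by linarith)
  have s2 : 0 ≤ Real.sin (b1 + b2) :=
    Real.sin_nonneg_of_nonneg_of_le_pi (by linarith) (by linarith)
  have hx := hq.rx0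
  have hy := hq.ry0
  have ha := hq.ra0
  have hb := hq.rb0
  have hT1 : tq ra rx b1 ≤ tq rx ry b2 := by
    have h5 : 0 ≤ wxb * rx * rb * Real.sin (b2 + b3) :=
      mul_nonneg (mul_nonneg (mul_nonneg hW.nxb hx.le) hb.le) s1
    linarith
  have hT2 : tq ry rb b3 ≤ tq rx ry b2 := by
    have h5 : 0 ≤ way * ra * ry * Real.sin (b1 + b2) :=
      mul_nonneg (mul_nonneg (mul_nonneg hW.nay ha.le) hy.le) s2
    linarith
  have hm := yxq (e := π - (b1 + b2 + b3)) hq (by ring) (by linarith) (by linarith [hf.1])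
    (by linarith [hf.2]) (by rw [← ht2, ch_symm88]; exact hD.p.pyx) hT1 hT2
  rw [← ht2] at hm
  have hpos := hD.pos
  rw [hd_symm88 ry rx] at hpos
  linarith

end E5
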