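import Pool.Agent.Helper71.E5.Stmts

set_option autoImplicit false

open Complex

namespace E5

/-- The square of the norm of a weighted sum of differences. -/
theorem sq_sum55 {n : ℕ} (c : Fin n → ℂ) (W : Fin n → ℝ) (i : Fin n) :
    ‖∑ j, (W j : ℂ) * (c i - c j)‖ ^ 2 = ∑ j, ∑ k, W j * W k *
      ((dist (c i) (c j) ^ 2 + dist (c i) (c k) ^ 2 - dist (c j) (c k) ^ 2) / 2) := by
  have h1 : ‖∑ j, (W j : ℂ) * (c i - c j)‖ ^ 2 =
      ((∑ j, (W j : ℂ) * (c i - c j)) * (starRingEnd ℂ) (∑ k, (W k : ℂ) * (c i - c k))).re := by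
    rw [Complex.mul_conj, Complex.ofReal_re, Complex.sq_norm]
  rw [h1, map_sum, Finset.sum_mul_sum, Complex.re_sum]
  refine Finset.sum_congr rfl fun j _ => ?_
  rw [Complex.re_sum]
  refine Finset.sum_congr rfl fun k _ => ?_
  simp only [dist_eq_norm, Complex.sq_norm, Complex.normSq_apply, map_mul, map_sub,
    Complex.conj_ofReal, Complex.mul_re, Complex.mul_im, Complex.sub_re, Complex.sub_im,
    Complex.ofReal_re, Complex.ofReal_im, Complex.conj_re, Complex.conj_im]
  ring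

theorem LOAD : ST_LOAD := by
  intro n p q M gp ap bp Lq W θ hc h i
  rw [← h.eqp i, ← h.eqq i]
  refine abs_le_of_sq_le_sq' ?_ (norm_nonneg _) |>.2
  rw [sq_sum55, sq_sum55]
  refine Finset.sum_le_sum fun j _ => Finset.sum_le_sum fun k _ => ?_
  by_cases hj : W i j = 0
  · simp [hj]
  by_cases hk : W i k = 0
  · simp [hk]
  rw [h.comp i j hj, h.comp i k hk]
  refine mul_le_mul_of_nonneg_left ?_ (mul_nonneg (h.nonneg i j) (h.nonneg i k))
  have h1 : dist (q j) (q k) ^ 2 ≤ dist (p j) (p k) ^ 2 :=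
    pow_le_pow_left₀ dist_nonneg (hc j k) 2
  linarith

end E5
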