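import Pool.Agent.Helper55.E5.TPER

set_option autoImplicit false

open scoped Topology
open Complex

namespace E5

theorem LOCQ (hP : ST_LOCP) : ST_LOCQ := by
  intro n c g a b h hab
  filter_upwards [hP n c n g a b h] with c' hc'
  obtain ⟨S, hS, h1⟩ := hc'
  have h2 : S = Finset.univ := by
    refine Finset.eq_univ_iff_forall.2 fun i => ?_
    obtain ⟨k, hk⟩ := g_surj55 h.ginj i
    rw [← hk]
    exact hS.1 k (hab k)
  rw [h1, h2]

end E5
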