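import Pool.Agent.Helper55.E5.TPER

set_option autoImplicit false

namespace E5

theorem ord3_aux55 {n : ℕ} {gp gq : ℤ → Fin n} (h3 : ∀ k, gp (k + 3) = gp k)
    (hq : ∀ k, gq (k + n) = gq k) {x0 x1 x2 : ℤ} (h01 : x0 < x1) (h12 : x1 < x2)
    (h20 : x2 < x0 + n) (e0 : gq x0 = gp 0) (e1 : gq x1 = gp 1) (e2 : gq x2 = gp 2) :
    SameOrd gp 3 gq n := by
  have h3' : ∀ k, gp (k + (3 : ℕ)) = gp k := fun k => by
    push_cast
    exact h3 k
  refine ⟨fun k => (if k % 3 = 0 then x0 else if k % 3 = 1 then x1 else x2) + n * (k / 3),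
    ?_, ?_, ?_⟩
  · refine strictMono_int_of_lt_succ fun k => ?_
    have hk : k % 3 = 0 ∨ k % 3 = 1 ∨ k % 3 = 2 := by omega
    rcases hk with hk | hk | hk
    · have a1 : (k + 1) % 3 = 1 := by omega
      have a2 : (k + 1) / 3 = k / 3 := by omega
      simp only [hk, a1, a2]
      norm_num
      exact h01
    · have a1 : (k + 1) % 3 = 2 := by omega
      have a2 : (k + 1) / 3 = k / 3 := by omega
      simp only [hk, a1, a2]
      norm_num
      exact h12
    · have a1 : (k + 1) % 3 = 0 := by omega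
      have a2 : (k + 1) / 3 = k / 3 + 1 := by omega
      simp only [hk, a1, a2]
      norm_num
      linarith
  · intro k
    have a1 : (k + (3 : ℕ)) % 3 = k % 3 := by omega
    have a2 : (k + (3 : ℕ)) / 3 = k / 3 + 1 := by omega
    simp only [a1, a2]
    ring
  · intro k
    have hk : k % 3 = 0 ∨ k % 3 = 1 ∨ k % 3 = 2 := by omega
    have hk2 := Int.emod_add_mul_ediv k 3
    have h4 := g_mod55 h3' (k % 3) (k / 3)
    have h5 : k % 3 + ((3 : ℕ) : ℤ) * (k / 3) = k := by
      push_cast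
      exact hk2
    rw [h5] at h4
    rcases hk with hk | hk | hk
    · simp only [hk]
      rw [hk] at h4
      norm_num
      rw [g_mod55 hq, e0, h4]
    · simp only [hk]
      rw [hk] at h4
      norm_num
      rw [g_mod55 hq, e1, h4]
    · simp only [hk]
      rw [hk] at h4
      norm_num
      rw [g_mod55 hq, e2, h4]

theorem ORD3 : ST_ORD3 := by
  intro n gp gq h3 hp hq hqi
  have n01 : gp 0 ≠ gp 1 := fun h => by
    have := hp _ _ h
    omega
  have n02 : gp 0 ≠ gp 2 := fun h => by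
    have := hp _ _ h
    omega
  have n12 : gp 1 ≠ gp 2 := fun h => by
    have := hp _ _ h
    omega
  obtain ⟨x0, -, -, e0⟩ := g_pos55 hq hqi (gp 0) 0
  obtain ⟨x1, a1, b1, e1⟩ := g_pos55 hq hqi (gp 1) x0
  obtain ⟨x2, a2, b2, e2⟩ := g_pos55 hq hqi (gp 2) x0
  have m01 : x0 ≠ x1 := fun h => n01 (by rw [← e0, ← e1, h])
  have m02 : x0 ≠ x2 := fun h => n02 (by rw [← e0, ← e2, h])
  have m12 : x1 ≠ x2 := fun h => n12 (by rw [← e1, ← e2, h])
  have c1 : x0 < x1 := lt_of_le_of_ne a1 m01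
  have c2 : x0 < x2 := lt_of_le_of_ne a2 m02
  rcases lt_or_gt_of_ne m12 with h | h
  · left
    exact ord3_aux55 h3 hq c1 h b2 e0 e1 e2
  · right
    have hq' : ∀ k : ℤ, gq (-(k + n)) = gq (-k) := by
      intro k
      have := hq (-(k + n))
      rw [← this]
      congr 1
      ring
    have hs : ∀ x : ℤ, gq (-(-x + n)) = gq x := by
      intro x
      have := hq (-(-x + n))
      rw [← this]
      congr 1
      ring
    refine ord3_aux55 (gq := fun k => gq (-k)) h3 hq' (x0 := -x0) (x1 := -x1 + n)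
      (x2 := -x2 + n) ?_ ?_ ?_ ?_ ?_ ?_
    · linarith
    · linarith
    · linarith
    · rw [neg_neg, e0]
    · rw [hs, e1]
    · rw [hs, e2]

end E5
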