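import Pool.Agent.Helper71.E5.Stmts

set_option autoImplicit false

open scoped MeasureTheory ENNReal
open Complex

noncomputable section

namespace E5

theorem scale_K55 {n : ℕ} (r : ℝ) (hr : 0 < r) (c : Fin n → ℂ) :
    (⋂ i, Metric.closedBall (c i) r) =
      (fun x : ℂ => (r : ℂ) • x) '' AX.K 1 (fun i => ((r : ℂ)⁻¹) * c i) := by
  have hr' : (r : ℂ) ≠ 0 := by exact_mod_cast hr.ne'
  ext z
  unfold AX.K
  simp only [Set.mem_iInter, Metric.mem_closedBall, Set.mem_image]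
  constructor
  · intro h
    refine ⟨(r : ℂ)⁻¹ * z, fun i => ?_, ?_⟩
    · have h1 := h i
      rw [dist_eq_norm] at h1 ⊢
      rw [← mul_sub, norm_mul, norm_inv, Complex.norm_real, Real.norm_of_nonneg hr.le]
      rw [inv_mul_le_iff₀ hr]
      linarith
    · rw [smul_eq_mul, mul_inv_cancel_left₀ hr']
  · rintro ⟨x, hx, rfl⟩ i
    have h1 := hx i
    rw [dist_eq_norm] at h1 ⊢
    have h2 : (r : ℂ) • x - c i = (r : ℂ) * (x - (r : ℂ)⁻¹ * c i) := by
      rw [smul_eq_mul, mul_sub, mul_inv_cancel_left₀ hr']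
    rw [h2, norm_mul, Complex.norm_real, Real.norm_of_nonneg hr.le]
    nlinarith

theorem scale_mu55 {n : ℕ} (r : ℝ) (hr : 0 < r) (c : Fin n → ℂ) :
    μH[1] (frontier (⋂ i, Metric.closedBall (c i) r)) =
      ENNReal.ofReal r * μH[1] (frontier (AX.K 1 (fun i => ((r : ℂ)⁻¹) * c i))) := by
  have hr' : (r : ℂ) ≠ 0 := by exact_mod_cast hr.ne'
  rw [scale_K55 r hr c]
  have h1 := (Homeomorph.smulOfNeZero (r : ℂ) hr').image_frontier
    (AX.K 1 (fun i => ((r : ℂ)⁻¹) * c i))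
  have h2 : (fun x : ℂ => (r : ℂ) • x) = Homeomorph.smulOfNeZero (α := ℂ) (r : ℂ) hr' := rfl
  rw [h2, ← h1, ← h2, Set.image_smul,
    MeasureTheory.Measure.hausdorffMeasure_smul₀ zero_le_one hr']
  have h4 : ‖(r : ℂ)‖₊ = Real.toNNReal r := by
    apply NNReal.eq
    rw [coe_nnnorm, Complex.norm_real, Real.norm_of_nonneg hr.le, Real.coe_toNNReal r hr.le]
  rw [h4, NNReal.rpow_one]
  rfl

theorem SCALE (hF : ST_FIN) : ST_SCALE := by
  intro n hA r p q hr hpq
  set φ : EuclideanSpace ℝ (Fin 2) ≃ᵢ ℂ :=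
    Complex.orthonormalBasisOneI.repr.symm.toIsometryEquiv with hφ
  have hfr : ∀ s : Fin n → EuclideanSpace ℝ (Fin 2),
      μH[1] (frontier (⋂ i, Metric.closedBall (s i) r)) =
      μH[1] (frontier (⋂ i, Metric.closedBall (φ (s i)) r)) := by
    intro s
    have hall : φ '' (⋂ i, Metric.closedBall (s i) r) =
        ⋂ i, Metric.closedBall (φ (s i)) r := by
      ext z
      obtain ⟨y, rfl⟩ := φ.surjective z
      rw [φ.injective.mem_set_image]
      simp only [Set.mem_iInter, Metric.mem_closedBall, φ.dist_eq]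
    rw [← hall]
    have h1 : frontier (φ '' (⋂ i, Metric.closedBall (s i) r)) =
        φ '' frontier (⋂ i, Metric.closedBall (s i) r) :=
      (φ.toHomeomorph.image_frontier _).symm
    rw [h1, φ.hausdorffMeasure_image]
  rw [hfr p, hfr q, scale_mu55 r hr, scale_mu55 r hr]
  refine mul_le_mul_right ?_ _
  have h1 := hA (fun i => ((r : ℂ)⁻¹) * φ (p i)) (fun i => ((r : ℂ)⁻¹) * φ (q i)) ?_
  · unfold per at h1
    exact (ENNReal.toReal_le_toReal (hF n _) (hF n _)).1 h1
  · intro i j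
    rw [dist_eq_norm, dist_eq_norm, ← mul_sub, ← mul_sub, norm_mul, norm_mul]
    refine mul_le_mul_of_nonneg_left ?_ (norm_nonneg _)
    rw [← dist_eq_norm, ← dist_eq_norm, φ.dist_eq, φ.dist_eq]
    exact hpq i j

end E5
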