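import Pool.Agent.Helper71.E5.Stmts

set_option autoImplicit false

open Complex

namespace E5

theorem SMALL (hI : ST_PISO) : ST_SMALL := by
  constructor
  · intro p q _
    have : p = q := funext fun i => i.elim0
    rw [this]
  · intro p q _
    have h := hI 1 p (IsometryEquiv.addRight (q 0 - p 0))
    rw [← h]
    have : (fun i => IsometryEquiv.addRight (q 0 - p 0) (p i)) = q := by
      funext i
      have hi : i = 0 := Subsingleton.elim _ _
      rw [hi]
      simp
    rw [this]

end E5
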