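import Pool.Agent.Helper71.E5.Stmts

set_option autoImplicit false

open Complex

namespace E5

theorem om_tn55 (x y : ℂ) : om x y * dist x y ^ 2 = 2 * tn x y := by
  unfold om tn
  by_cases hd : dist x y = 0
  · rw [hd]
    simp
  by_cases hs : Real.sqrt (4 - dist x y ^ 2) = 0
  · rw [hs]
    simp
  field_simp

theorem pair_one55 {n : ℕ} (c : Fin n → ℂ) (u v : Fin n) :
    ∑ i, ((starRingEnd ℂ) (c i) * (if u = i then (om (c u) (c v) : ℂ) * (c u - c v)
      else if v = i then (om (c u) (c v) : ℂ) * (c v - c u) else 0)).re =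
      2 * tn (c u) (c v) := by
  by_cases huv : u = v
  · subst huv
    have h1 : ∀ i, ((starRingEnd ℂ) (c i) * (if u = i then (om (c u) (c u) : ℂ) * (c u - c u)
      else if u = i then (om (c u) (c u) : ℂ) * (c u - c u) else 0)).re = 0 := by
      intro i
      simp
    rw [Finset.sum_congr rfl fun i _ => h1 i]
    unfold tn
    simp
  · have h1 : ∀ i, ((starRingEnd ℂ) (c i) * (if u = i then (om (c u) (c v) : ℂ) * (c u - c v)
      else if v = i then (om (c u) (c v) : ℂ) * (c v - c u) else 0)).re =
        (if u = i then ((starRingEnd ℂ) (c u) * ((om (c u) (c v) : ℂ) * (c u - c v))).re else 0) +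
        (if v = i then ((starRingEnd ℂ) (c v) * ((om (c u) (c v) : ℂ) * (c v - c u))).re
          else 0) := by
      intro i
      by_cases h1 : u = i
      · subst h1
        rw [if_pos rfl, if_pos rfl, if_neg (fun h => huv h.symm), add_zero]
      · by_cases h2 : v = i
        · subst h2
          rw [if_neg h1, if_pos rfl, if_neg h1, if_pos rfl, zero_add]
        · rw [if_neg h1, if_neg h2, if_neg h1, if_neg h2, mul_zero, Complex.zero_re, add_zero]
    rw [Finset.sum_congr rfl fun i _ => h1 i, Finset.sum_add_distrib, Finset.sum_ite_eq,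
      Finset.sum_ite_eq, if_pos (Finset.mem_univ _), if_pos (Finset.mem_univ _), ← om_tn55]
    simp only [dist_eq_norm, Complex.sq_norm, Complex.normSq_apply, Complex.mul_re,
      Complex.mul_im, Complex.sub_re, Complex.sub_im, Complex.ofReal_re, Complex.ofReal_im,
      Complex.conj_re, Complex.conj_im]
    ring

theorem pair_list55 {n : ℕ} (c : Fin n → ℂ) : ∀ l l' : List (Fin n),
    ∑ i, ((starRingEnd ℂ) (c i) * (List.zipWith (fun u v => if u = i then
      (om (c u) (c v) : ℂ) * (c u - c v) else if v = i then (om (c u) (c v) : ℂ) * (c v - c u)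
      else 0) l l').sum).re = (List.zipWith (fun i j => 2 * tn (c i) (c j)) l l').sum
  | [], l' => by simp
  | u :: l, [] => by simp
  | u :: l, v :: l' => by
    simp only [List.zipWith_cons_cons, List.sum_cons, mul_add, Complex.add_re,
      Finset.sum_add_distrib]
    rw [pair_one55, pair_list55 c l l']

theorem pair_grad55 {n : ℕ} (c : Fin n → ℂ) (l : List (Fin n)) :
    ∑ i, ((starRingEnd ℂ) (c i) * cgrad c l i).re = ctan c l := pair_list55 c l (l.rotate 1)

theorem pair_load55 {n : ℕ} (c : Fin n → ℂ) (W : Fin n → Fin n → ℝ) (hs : ∀ i j, W i j = W j i) :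
    ∑ i, ((starRingEnd ℂ) (c i) * ∑ j, (W i j : ℂ) * (c i - c j)).re =
      (∑ i, ∑ j, W i j * dist (c i) (c j) ^ 2) / 2 := by
  have h1 : ∀ i, ((starRingEnd ℂ) (c i) * ∑ j, (W i j : ℂ) * (c i - c j)).re =
      ∑ j, W i j * ((starRingEnd ℂ) (c i) * (c i - c j)).re := by
    intro i
    rw [Finset.mul_sum, Complex.re_sum]
    refine Finset.sum_congr rfl fun j _ => ?_
    simp only [Complex.mul_re, Complex.mul_im, Complex.sub_re, Complex.sub_im,
      Complex.ofReal_re, Complex.ofReal_im, Complex.conj_re, Complex.conj_im]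
    ring
  rw [Finset.sum_congr rfl fun i _ => h1 i]
  have h2 : ∑ i, ∑ j, W i j * ((starRingEnd ℂ) (c i) * (c i - c j)).re =
      ∑ i, ∑ j, W i j * ((starRingEnd ℂ) (c j) * (c j - c i)).re := by
    rw [Finset.sum_comm]
    refine Finset.sum_congr rfl fun i _ => Finset.sum_congr rfl fun j _ => ?_
    rw [hs j i]
  have h3 : ∑ i, ∑ j, W i j * dist (c i) (c j) ^ 2 =
      ∑ i, ∑ j, W i j * ((starRingEnd ℂ) (c i) * (c i - c j)).re +
        ∑ i, ∑ j, W i j * ((starRingEnd ℂ) (c j) * (c j - c i)).re := by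
    rw [← Finset.sum_add_distrib]
    refine Finset.sum_congr rfl fun i _ => ?_
    rw [← Finset.sum_add_distrib]
    refine Finset.sum_congr rfl fun j _ => ?_
    simp only [dist_eq_norm, Complex.sq_norm, Complex.normSq_apply, Complex.mul_re,
      Complex.sub_re, Complex.sub_im, Complex.conj_re, Complex.conj_im]
    ring
  rw [h3, ← h2]
  ring

theorem TAN : ST_TAN := by
  intro n p q M gp ap bp gq aq bq W θ _ _ h
  rw [← pair_grad55]
  have h1 : ∀ i, cgrad q (lst gq n Finset.univ) i = ∑ j, (W i j : ℂ) * (q i - q j) :=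
    fun i => (h.eqq i).symm
  have h2 : ∑ i, ((starRingEnd ℂ) (p i) * ∑ j, (W i j : ℂ) * (p i - p j)).re =
      ∑ S, θ S * ctan p (lst gp M S) := by
    have h3 : ∀ i, ((starRingEnd ℂ) (p i) * ∑ j, (W i j : ℂ) * (p i - p j)).re =
        ∑ S, θ S * ((starRingEnd ℂ) (p i) * cgrad p (lst gp M S) i).re := by
      intro i
      rw [h.eqp i, Finset.mul_sum, Complex.re_sum]
      refine Finset.sum_congr rfl fun S _ => ?_
      simp only [Complex.mul_re, Complex.mul_im, Complex.ofReal_re, Complex.ofReal_im,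
        Complex.conj_re, Complex.conj_im]
      ring
    rw [Finset.sum_congr rfl fun i _ => h3 i, Finset.sum_comm]
    refine Finset.sum_congr rfl fun S _ => ?_
    rw [← Finset.mul_sum, pair_grad55]
  rw [← h2, pair_load55 p W h.symm]
  simp only [h1]
  rw [pair_load55 q W h.symm]
  congr 1
  refine Finset.sum_congr rfl fun i _ => Finset.sum_congr rfl fun j _ => ?_
  by_cases hw : W i j = 0
  · rw [hw, zero_mul, zero_mul]
  · rw [h.comp i j hw]

end E5
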