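import Pool.Agent.Helper71.E5.Stmts

set_option autoImplicit false

open Complex

namespace E5

theorem e_add55 (θ : ℝ) (z : ℤ) : AX.e (θ + 2 * Real.pi * z) = AX.e θ := by
  unfold AX.e
  have h : ((θ + 2 * Real.pi * z : ℝ) : ℂ) * I = θ * I + z * (2 * Real.pi * I) := by
    push_cast
    ring
  rw [h, Complex.exp_add, Complex.exp_int_mul_two_pi_mul_I, mul_one]

theorem T_add55 {n : ℕ} {r : ℝ} {c : Fin n → ℂ} {i : Fin n} {θ : ℝ} (z : ℤ)
    (h : θ ∈ AX.T r c i) : θ + 2 * Real.pi * z ∈ AX.T r c i := by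
  unfold AX.T at *
  rw [Set.mem_ofPred_eq] at *
  rwa [e_add55]

theorem g_mod55 {α : Type} {g : ℤ → α} {M : ℕ} (h : ∀ k, g (k + M) = g k) (k z : ℤ) :
    g (k + M * z) = g k := by
  have h1 : Function.Periodic g (M : ℤ) := h
  have h2 := h1.int_mul z k
  rw [← h2]
  congr 1
  push_cast
  ring

/-- Every index occurs when the indices of one period are distinct. -/
theorem g_surj55 {n : ℕ} {g : ℤ → Fin n} (h : ∀ k l, g k = g l → (n : ℤ) ∣ l - k)
    (i : Fin n) : ∃ k : ℤ, g k = i := by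
  have h1 : Function.Injective (fun k : Fin n => g ((k : ℕ) : ℤ)) := by
    intro k l hkl
    obtain ⟨z, hz⟩ := h _ _ hkl
    have hk := k.isLt
    have hl := l.isLt
    have hz0 : z = 0 := by
      by_contra hcon
      rcases lt_or_gt_of_ne hcon with h2 | h2
      · have : (n : ℤ) * z ≤ (n : ℤ) * (-1) :=
          mul_le_mul_of_nonneg_left (by omega) (by omega)
        omega
      · have : (n : ℤ) * 1 ≤ (n : ℤ) * z := mul_le_mul_of_nonneg_left (by omega) (by omega)
        omega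
    rw [hz0, mul_zero] at hz
    exact Fin.ext (by omega)
  obtain ⟨k, hk⟩ := (Finite.injective_iff_surjective.1 h1) i
  exact ⟨_, hk⟩

/-- The position can be chosen in any period. -/
theorem g_pos55 {n : ℕ} {g : ℤ → Fin n} (hp : ∀ k, g (k + n) = g k)
    (h : ∀ k l, g k = g l → (n : ℤ) ∣ l - k) (i : Fin n) (x : ℤ) :
    ∃ k : ℤ, x ≤ k ∧ k < x + n ∧ g k = i := by
  obtain ⟨k, hk⟩ := g_surj55 h i
  have hn : 0 < n := i.pos
  refine ⟨x + (k - x) % n, ?_, ?_, ?_⟩
  · have := Int.emod_nonneg (k - x) (b := (n : ℤ)) (by omega)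
    omega
  · have := Int.emod_lt_of_pos (k - x) (b := (n : ℤ)) (by omega)
    omega
  · have h1 := g_mod55 hp (x + (k - x) % n) ((k - x) / n)
    rw [← hk, ← h1]
    congr 1
    have := Int.emod_add_mul_ediv (k - x) n
    linarith

end E5
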